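import Mathlib

set_option autoImplicit false

/-!
# Half of the mixed discriminant
-/

namespace Pool.Agent.W363.TF

open Finset Equiv

/-! ### the signed half sum -/

section SSdef

variable {R : Type} [CommRing R] {n : ℕ}

/-- the sign of a permutation in a ring -/
def sn (R : Type) [CommRing R] {n : ℕ} (ρ : Perm (Fin n)) : R := ((Perm.sign ρ : ℤ) : R)

theorem sn_mul (ρ σ : Perm (Fin n)) : sn R (ρ * σ) = sn R ρ * sn R σ := by
  simp [sn, Perm.sign_mul]

theorem sn_inv (ρ : Perm (Fin n)) : sn R ρ⁻¹ = sn R ρ := by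
  simp [sn, Perm.sign_inv]

/-- product along a pair of permutations -/
def PP (v : Fin n → Matrix (Fin n) (Fin n) R) (ρ σ : Perm (Fin n)) : R := ∏ i, v i (ρ i) (σ i)

/-- the half sum, with a sign for the first permutation -/
def SS (j : Fin n) (v : Fin n → Matrix (Fin n) (Fin n) R) : R :=
  ∑ p : Perm (Fin n) × Perm (Fin n),
    if p.1⁻¹ j < p.2⁻¹ j then sn R p.1 * PP v p.1 p.2 else 0

theorem SS_slot_zero (j : Fin n) {v : Fin n → Matrix (Fin n) (Fin n) R} {i : Fin n}
    (h : ∀ a b, v i a b = 0) : SS j v = 0 := by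
  unfold SS
  apply Finset.sum_eq_zero
  intro p _
  have : PP v p.1 p.2 = 0 := by
    unfold PP
    exact Finset.prod_eq_zero (Finset.mem_univ i) (h _ _)
  rw [this, mul_zero, ite_self]

/-- multilinear expansion -/
theorem SS_expand {O : Type} [Fintype O] [DecidableEq O] (j : Fin n)
    (g : Fin n → O → Matrix (Fin n) (Fin n) R) :
    SS j (fun i => fun a b => ∑ o, g i o a b) = ∑ r : Fin n → O, SS j (fun i => g i (r i)) := by
  unfold SS
  rw [Finset.sum_comm]
  apply Finset.sum_congr rfl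
  intro p _
  by_cases h : p.1⁻¹ j < p.2⁻¹ j
  · simp only [if_pos h]
    rw [← Finset.mul_sum]
    congr 1
    unfold PP
    rw [Finset.prod_univ_sum]
    simp only [Fintype.piFinset_univ]
  · simp only [if_neg h, Finset.sum_const_zero]

theorem SS_map {S : Type} [CommRing S] (φ : R →+* S) (j : Fin n)
    (v : Fin n → Matrix (Fin n) (Fin n) R) :
    φ (SS j v) = SS j (fun i => fun a b => φ (v i a b)) := by
  unfold SS PP sn
  rw [map_sum]
  apply Finset.sum_congr rfl
  intro p _
  split_ifs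
  · rw [map_mul, map_prod, map_intCast]
  · exact map_zero φ

end SSdef

/-! ### the expansion along a cycle -/

section cyc

variable {R : Type} [CommRing R] {n q : ℕ}

def fA (x : Fin (q+1) → Fin n → R) (ε : Fin (q+1) → Bool) (k : Fin (q+1)) : Fin n → R :=
  if ε k then x (k+1) else x k

def fB (x : Fin (q+1) → Fin n → R) (ε : Fin (q+1) → Bool) (k : Fin (q+1)) : Fin n → R :=
  if ε k then x k else x (k+1)

def sg (R : Type) [CommRing R] {q : ℕ} (ε : Fin (q+1) → Bool) (k : Fin (q+1)) : R :=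
  if ε k then -1 else 1

/-- the rest of the product -/
def rst (v : Fin n → Matrix (Fin n) (Fin n) R) (l : Fin (q+1) → Fin n)
    (ρ σ : Perm (Fin n)) : R :=
  ∏ i ∈ (Finset.univ \ Finset.image l Finset.univ), v i (ρ i) (σ i)

def PE (v : Fin n → Matrix (Fin n) (Fin n) R) (x : Fin (q+1) → Fin n → R) (c : Fin (q+1) → R)
    (l : Fin (q+1) → Fin n) (ε : Fin (q+1) → Bool) (ρ σ : Perm (Fin n)) : R :=
  (∏ k, c k * sg R ε k) * (∏ k, fA x ε k (ρ (l k))) * (∏ k, fB x ε k (σ (l k))) * rst v l ρ σ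

theorem PP_eq_sum {v : Fin n → Matrix (Fin n) (Fin n) R} {x : Fin (q+1) → Fin n → R}
    {c : Fin (q+1) → R} {l : Fin (q+1) → Fin n} (hl : Function.Injective l)
    (hv : ∀ k a b, v (l k) a b = c k * (x k a * x (k+1) b - x (k+1) a * x k b))
    (ρ σ : Perm (Fin n)) : PP v ρ σ = ∑ ε : Fin (q+1) → Bool, PE v x c l ε ρ σ := by
  unfold PP PE rst
  rw [← Finset.sum_mul, ← Finset.prod_sdiff (Finset.subset_univ (Finset.image l Finset.univ)),
    mul_comm]
  congr 1
  rw [Finset.prod_image (fun a _ b _ h => hl h)]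
  have h1 : ∀ k, v (l k) (ρ (l k)) (σ (l k)) = ∑ e : Bool,
      ((c k * if e then -1 else 1) * (if e then x (k+1) else x k) (ρ (l k)) *
        (if e then x k else x (k+1)) (σ (l k))) := by
    intro k
    rw [hv k]
    simp
    ring
  simp only [h1]
  rw [Finset.prod_univ_sum]
  simp only [Fintype.piFinset_univ, fA, fB, sg, Finset.prod_mul_distrib]

def FE (j : Fin n) (v : Fin n → Matrix (Fin n) (Fin n) R) (x : Fin (q+1) → Fin n → R)
    (c : Fin (q+1) → R) (l : Fin (q+1) → Fin n) (ε : Fin (q+1) → Bool) : R :=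
  ∑ p : Perm (Fin n) × Perm (Fin n),
    if p.1⁻¹ j < p.2⁻¹ j then sn R p.1 * PE v x c l ε p.1 p.2 else 0

theorem SS_eq_sum (j : Fin n) {v : Fin n → Matrix (Fin n) (Fin n) R} {x : Fin (q+1) → Fin n → R}
    {c : Fin (q+1) → R} {l : Fin (q+1) → Fin n} (hl : Function.Injective l)
    (hv : ∀ k a b, v (l k) a b = c k * (x k a * x (k+1) b - x (k+1) a * x k b)) :
    SS j v = ∑ ε : Fin (q+1) → Bool, FE j v x c l ε := by
  unfold SS FE
  rw [Finset.sum_comm]
  apply Finset.sum_congr rfl
  intro p _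
  by_cases h : p.1⁻¹ j < p.2⁻¹ j
  · simp only [if_pos h]
    rw [PP_eq_sum hl hv, Finset.mul_sum]
  · simp only [if_neg h, Finset.sum_const_zero]

theorem rst_congr (v : Fin n → Matrix (Fin n) (Fin n) R) (l : Fin (q+1) → Fin n)
    {ρ ρ' σ σ' : Perm (Fin n)} (h : ∀ i, (∀ k, l k ≠ i) → ρ i = ρ' i)
    (h' : ∀ i, (∀ k, l k ≠ i) → σ i = σ' i) : rst v l ρ σ = rst v l ρ' σ' := by
  unfold rst
  apply Finset.prod_congr rfl
  intro i hi
  have : ∀ k, l k ≠ i := by
    intro k hk
    simp at hi
    exact hi k hk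
  rw [h i this, h' i this]

theorem PE_zero_A {v : Fin n → Matrix (Fin n) (Fin n) R} {x : Fin (q+1) → Fin n → R}
    {c : Fin (q+1) → R} {l : Fin (q+1) → Fin n} {ε : Fin (q+1) → Bool} {ρ σ : Perm (Fin n)}
    (k : Fin (q+1)) (h : fA x ε k (ρ (l k)) = 0) : PE v x c l ε ρ σ = 0 := by
  unfold PE
  rw [Finset.prod_eq_zero (f := fun k => fA x ε k (ρ (l k))) (Finset.mem_univ k) h]
  ring

theorem PE_zero_B {v : Fin n → Matrix (Fin n) (Fin n) R} {x : Fin (q+1) → Fin n → R}
    {c : Fin (q+1) → R} {l : Fin (q+1) → Fin n} {ε : Fin (q+1) → Bool} {ρ σ : Perm (Fin n)}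
    (k : Fin (q+1)) (h : fB x ε k (σ (l k)) = 0) : PE v x c l ε ρ σ = 0 := by
  unfold PE
  rw [Finset.prod_eq_zero (f := fun k => fB x ε k (σ (l k))) (Finset.mem_univ k) h]
  ring

theorem FE_nonconst (j : Fin n) {v : Fin n → Matrix (Fin n) (Fin n) R}
    {x : Fin (q+1) → Fin n → R} {c : Fin (q+1) → R} {l : Fin (q+1) → Fin n}
    (hl : Function.Injective l) (hx : ∀ k, x k j = 0) {ε : Fin (q+1) → Bool} {k : Fin (q+1)}
    (h1 : ε k = true) (h2 : ε (k+1) = false) : FE j v x c l ε = 0 := by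
  have hne : k + 1 ≠ k := by
    intro h; rw [h, h1] at h2; exact Bool.noConfusion h2
  have hlne : l k ≠ l (k+1) := fun h => hne (hl h).symm
  have eA1 : fA x ε k = x (k+1) := by simp [fA, h1]
  have eA2 : fA x ε (k+1) = x (k+1) := by simp [fA, h2]
  unfold FE
  refine Finset.sum_involution (fun p _ => (p.1 * Equiv.swap (l k) (l (k+1)), p.2)) ?_ ?_ ?_ ?_
  · rintro ⟨ρ, σ⟩ _
    simp only
    by_cases hk : ρ (l k) = j
    · have z1 : PE v x c l ε ρ σ = 0 := PE_zero_A k (by rw [eA1, hk, hx])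
      have z2 : PE v x c l ε (ρ * Equiv.swap (l k) (l (k+1))) σ = 0 :=
        PE_zero_A (k+1) (by rw [eA2, Perm.mul_apply, Equiv.swap_apply_right, hk, hx])
      rw [z1, z2]; simp
    by_cases hk' : ρ (l (k+1)) = j
    · have z1 : PE v x c l ε ρ σ = 0 := PE_zero_A (k+1) (by rw [eA2, hk', hx])
      have z2 : PE v x c l ε (ρ * Equiv.swap (l k) (l (k+1))) σ = 0 :=
        PE_zero_A k (by rw [eA1, Perm.mul_apply, Equiv.swap_apply_left, hk', hx])
      rw [z1, z2]; simp
    have e1 : (ρ * Equiv.swap (l k) (l (k+1)))⁻¹ j = ρ⁻¹ j := by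
      rw [mul_inv_rev, Perm.mul_apply, Equiv.swap_inv, Equiv.swap_apply_of_ne_of_ne]
      · intro h; apply hk; rw [← h]; simp
      · intro h; apply hk'; rw [← h]; simp
    have e2 : sn R (ρ * Equiv.swap (l k) (l (k+1))) = - sn R ρ := by
      rw [sn_mul]
      simp [sn, Equiv.Perm.sign_swap hlne]
    have e3 : PE v x c l ε (ρ * Equiv.swap (l k) (l (k+1))) σ = PE v x c l ε ρ σ := by
      unfold PE
      congr 1
      · congr 2
        have s1 : ∀ k', (ρ * Equiv.swap (l k) (l (k+1))) (l k') = ρ (l (Equiv.swap k (k+1) k')) := by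
          intro k'
          rw [Perm.mul_apply]
          congr 1
          by_cases c1 : k' = k
          · rw [c1, Equiv.swap_apply_left, Equiv.swap_apply_left]
          by_cases c2 : k' = k+1
          · rw [c2, Equiv.swap_apply_right, Equiv.swap_apply_right]
          rw [Equiv.swap_apply_of_ne_of_ne c1 c2,
            Equiv.swap_apply_of_ne_of_ne (fun h => c1 (hl h)) (fun h => c2 (hl h))]
        simp only [s1]
        have s2 : ∀ k', fA x ε k' = fA x ε (Equiv.swap k (k+1) k') := by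
          intro k'
          by_cases c1 : k' = k
          · rw [c1, Equiv.swap_apply_left, eA1, eA2]
          by_cases c2 : k' = k+1
          · rw [c2, Equiv.swap_apply_right, eA1, eA2]
          rw [Equiv.swap_apply_of_ne_of_ne c1 c2]
        have s3 : ∀ k', fA x ε k' (ρ (l (Equiv.swap k (k+1) k'))) =
            fA x ε (Equiv.swap k (k+1) k') (ρ (l (Equiv.swap k (k+1) k'))) := by
          intro k'
          rw [← s2]
        simp only [s3]
        exact Equiv.prod_comp (Equiv.swap k (k+1)) (fun k' => fA x ε k' (ρ (l k')))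
      · apply rst_congr
        · intro i hi
          rw [Perm.mul_apply, Equiv.swap_apply_of_ne_of_ne (hi k).symm (hi (k+1)).symm]
        · intro i _; rfl
    rw [e1, e2, e3]
    split_ifs
    · ring
    · ring
  · rintro ⟨ρ, σ⟩ _ _ heq
    have h3 : ρ * Equiv.swap (l k) (l (k+1)) = ρ := congrArg Prod.fst heq
    have h4 : Equiv.swap (l k) (l (k+1)) = 1 := mul_eq_left.mp h3
    exact hlne (Equiv.swap_eq_one_iff.mp h4)
  · intro p _; exact Finset.mem_univ _
  · rintro ⟨ρ, σ⟩ _
    simp only [mul_assoc, Equiv.swap_mul_self, mul_one]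

theorem FE_const (j : Fin n) {v : Fin n → Matrix (Fin n) (Fin n) R}
    {x : Fin (q+1) → Fin n → R} {c : Fin (q+1) → R} {l : Fin (q+1) → Fin n}
    (hl : Function.Injective l) (hx : ∀ k, x k j = 0) :
    FE j v x c l (fun _ => true) = - FE j v x c l (fun _ => false) := by
  set C : Perm (Fin n) := (finRotate (q+1)).viaFintypeEmbedding ⟨l, hl⟩ with hC
  have hC1 : ∀ k, C (l k) = l (k+1) := by
    intro k
    have := Equiv.Perm.viaFintypeEmbedding_apply_image (finRotate (q+1)) ⟨l, hl⟩ k
    rw [finRotate_apply] at this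
    exact this
  have hC1' : ∀ k, C⁻¹ (l (k+1)) = l k := by
    intro k
    rw [← hC1]; simp
  have hC2 : ∀ i, (∀ k, l k ≠ i) → C i = i := by
    intro i hi
    apply Equiv.Perm.viaFintypeEmbedding_apply_notMem_range
    rintro ⟨k, hk⟩
    exact hi k hk
  have hC2' : ∀ i, (∀ k, l k ≠ i) → C⁻¹ i = i := by
    intro i hi
    rw [Perm.inv_eq_iff_eq, hC2 i hi]
  have hCs : sn R C = (-1)^q := by
    unfold sn
    rw [hC, Equiv.Perm.viaFintypeEmbedding_sign, sign_finRotate]
    simp
  unfold FE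
  rw [← Finset.sum_neg_distrib]
  rw [← Equiv.sum_comp ((Equiv.mulRight C⁻¹).prodCongr (Equiv.mulRight C))
    (fun p : Perm (Fin n) × Perm (Fin n) =>
      -(if p.1⁻¹ j < p.2⁻¹ j then sn R p.1 * PE v x c l (fun _ => false) p.1 p.2 else 0))]
  apply Finset.sum_congr rfl
  rintro ⟨ρ, σ⟩ _
  simp only [Equiv.prodCongr_apply, Prod.map, Equiv.coe_mulRight]
  by_cases hρ : ∃ k, l k = ρ⁻¹ j
  · obtain ⟨k, hk⟩ := hρ
    have hk1 : ρ (l k) = j := by rw [hk]; simp
    have z1 : PE v x c l (fun _ => true) ρ σ = 0 := by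
      apply PE_zero_A k
      simp only [fA, if_true, hk1, hx]
    have z2 : PE v x c l (fun _ => false) (ρ * C⁻¹) (σ * C) = 0 := by
      apply PE_zero_A (k+1)
      simp only [fA, Bool.false_eq_true, if_false, Perm.mul_apply, hC1', hk1, hx]
    rw [z1, z2]; simp
  by_cases hσ : ∃ k, l k = σ⁻¹ j
  · obtain ⟨k, hk⟩ := hσ
    have hk1 : σ (l k) = j := by rw [hk]; simp
    have z1 : PE v x c l (fun _ => true) ρ σ = 0 := by
      apply PE_zero_B k
      simp only [fB, if_true, hk1, hx]
    have z2 : PE v x c l (fun _ => false) (ρ * C⁻¹) (σ * C) = 0 := by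
      apply PE_zero_B (k-1)
      simp only [fB, Bool.false_eq_true, if_false, Perm.mul_apply, hC1, sub_add_cancel, hk1, hx]
    rw [z1, z2]; simp
  push Not at hρ hσ
  have e1 : (ρ * C⁻¹)⁻¹ j = ρ⁻¹ j := by
    rw [mul_inv_rev, inv_inv, Perm.mul_apply]
    exact hC2 _ hρ
  have e2 : (σ * C)⁻¹ j = σ⁻¹ j := by
    rw [mul_inv_rev, Perm.mul_apply]
    exact hC2' _ hσ
  have e3 : sn R (ρ * C⁻¹) = sn R ρ * (-1)^q := by rw [sn_mul, sn_inv, hCs]
  have e4 : PE v x c l (fun _ => true) ρ σ =
      (-1)^(q+1) * PE v x c l (fun _ => false) (ρ * C⁻¹) (σ * C) := by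
    unfold PE
    have a1 : ∏ k : Fin (q+1), c k * sg R (fun _ => true) k =
        (-1)^(q+1) * ∏ k : Fin (q+1), c k * sg R (fun _ => false) k := by
      simp only [sg, if_true, Bool.false_eq_true, if_false, Finset.prod_mul_distrib,
        Finset.prod_const, Finset.card_univ, Fintype.card_fin, one_pow]
      ring
    have a2 : ∏ k, fA x (fun _ => true) k (ρ (l k)) =
        ∏ k, fA x (fun _ => false) k ((ρ * C⁻¹) (l k)) := by
      rw [← Equiv.prod_comp (Equiv.addRight (1 : Fin (q+1)))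
        (fun k => fA x (fun _ => false) k ((ρ * C⁻¹) (l k)))]
      apply Finset.prod_congr rfl
      intro k _
      simp only [fA, if_true, Bool.false_eq_true, if_false, Equiv.coe_addRight, Perm.mul_apply,
        hC1']
    have a3 : ∏ k, fB x (fun _ => true) k (σ (l k)) =
        ∏ k, fB x (fun _ => false) k ((σ * C) (l k)) := by
      rw [← Equiv.prod_comp (Equiv.addRight (1 : Fin (q+1)))
        (fun k => fB x (fun _ => true) k (σ (l k)))]
      apply Finset.prod_congr rfl
      intro k _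
      simp only [fB, if_true, Bool.false_eq_true, if_false, Equiv.coe_addRight, Perm.mul_apply,
        hC1]
    have a4 : rst v l ρ σ = rst v l (ρ * C⁻¹) (σ * C) := by
      apply rst_congr
      · intro i hi
        rw [Perm.mul_apply, hC2' i hi]
      · intro i hi
        rw [Perm.mul_apply, hC2 i hi]
    rw [a1, a2, a3, a4]
    ring
  rw [e1, e2, e3, e4]
  split_ifs
  · have : ((-1 : R))^(q+1) = - (-1)^q := by rw [pow_succ]; ring
    rw [this]; ring
  · ring

open Fin.NatCast Fin.CommRing in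
theorem const_or (ε : Fin (q+1) → Bool) : ε = (fun _ => true) ∨ ε = (fun _ => false) ∨
    ∃ k, ε k = true ∧ ε (k+1) = false := by
  by_cases h : ∃ k, ε k = true ∧ ε (k+1) = false
  · exact Or.inr (Or.inr h)
  by_cases h0 : ∃ k0, ε k0 = true
  · left
    obtain ⟨k0, hk0⟩ := h0
    have key : ∀ m : ℕ, ε (k0 + (m : Fin (q+1))) = true := by
      intro m
      induction m with
      | zero => simpa using hk0
      | succ m ih =>
        by_contra hc
        apply h
        refine ⟨_, ih, ?_⟩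
        rw [Bool.not_eq_true] at hc
        rw [← hc]
        congr 1
        push_cast
        ring
    funext k
    have := key (k - k0).val
    rw [Fin.cast_val_eq_self] at this
    simpa using this
  · right; left
    funext k
    push Not at h0
    have := h0 k
    simpa using this

/-- **vanishing along cycles** -/
theorem SS_cyc (j : Fin n) {v : Fin n → Matrix (Fin n) (Fin n) R} {x : Fin (q+1) → Fin n → R}
    {c : Fin (q+1) → R} {l : Fin (q+1) → Fin n} (hl : Function.Injective l)
    (hx : ∀ k, x k j = 0)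
    (hv : ∀ k a b, v (l k) a b = c k * (x k a * x (k+1) b - x (k+1) a * x k b)) :
    SS j v = 0 := by
  rw [SS_eq_sum j hl hv]
  have hne : (fun _ : Fin (q+1) => true) ≠ (fun _ => false) := by
    intro h
    exact Bool.noConfusion (congrFun h 0)
  rw [← Finset.sum_subset (Finset.subset_univ {(fun _ => true), (fun _ => false)})]
  · rw [Finset.sum_pair hne, FE_const j hl hx]
    ring
  · intro ε _ hε
    simp only [Finset.mem_insert, Finset.mem_singleton, not_or] at hε
    rcases const_or ε with h | h | ⟨k, h1, h2⟩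
    · exact absurd h hε.1
    · exact absurd h hε.2
    · exact FE_nonconst j hl hx h1 h2

end cyc

end Pool.Agent.W363.TF
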