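import Mathlib
import Pool.Agent.W363.TF.Disc

set_option autoImplicit false

/-!
# Iterated differences, the top value, and invariance of the half mixed discriminant
-/

namespace Pool.Agent.W363.TF

open Finset Equiv

section diff

variable {R : Type} [CommRing R] {n q : ℕ}

def wd (x : Fin (q+1) → Fin n → R) (k : Fin (q+1)) (a b : Fin n) : R :=
  x k a * x (k+1) b - x (k+1) a * x k b

def gS (C : Fin n → Matrix (Fin n) (Fin n) R) (b : Fin (q+1) → Fin n → R)
    (x : Fin (q+1) → Fin n → R) (S : Finset (Fin (q+1))) (i : Fin n) :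
    Option (Fin (q+1)) → Matrix (Fin n) (Fin n) R
  | none => C i
  | some k => fun j j' => if k ∈ S then b k i * wd x k j j' else 0

theorem gS_sum (C : Fin n → Matrix (Fin n) (Fin n) R) (b : Fin (q+1) → Fin n → R)
    (x : Fin (q+1) → Fin n → R) (S : Finset (Fin (q+1))) (i j j' : Fin n) :
    ∑ o, gS C b x S i o j j' = C i j j' + ∑ k ∈ S, b k i * wd x k j j' := by
  rw [Fintype.sum_option]
  simp [gS, Finset.sum_ite_mem]

/-- membership toggling -/
def tog (k : Fin (q+1)) (S : Finset (Fin (q+1))) : Finset (Fin (q+1)) :=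
  if k ∈ S then S.erase k else insert k S

theorem mem_tog {k k' : Fin (q+1)} (S : Finset (Fin (q+1))) (h : k' ≠ k) :
    k' ∈ tog k S ↔ k' ∈ S := by
  unfold tog
  split_ifs with hk
  · simp [h]
  · simp [h]

theorem tog_tog (k : Fin (q+1)) (S : Finset (Fin (q+1))) : tog k (tog k S) = S := by
  unfold tog
  by_cases hk : k ∈ S
  · simp [hk, Finset.insert_erase hk]
  · simp [hk]

theorem tog_ne (k : Fin (q+1)) (S : Finset (Fin (q+1))) : tog k S ≠ S := by
  unfold tog
  by_cases hk : k ∈ S
  · rw [if_pos hk]
    intro h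
    have : k ∈ S.erase k := by rw [h]; exact hk
    simp at this
  · rw [if_neg hk]
    intro h
    apply hk
    rw [← h]; simp

theorem tog_card (k : Fin (q+1)) (S : Finset (Fin (q+1))) :
    ((-1 : R)) ^ (tog k S).card = - (-1) ^ S.card := by
  unfold tog
  by_cases hk : k ∈ S
  · rw [if_pos hk]
    have h := Finset.card_erase_add_one hk
    rw [← h, pow_succ]; ring
  · rw [if_neg hk, Finset.card_insert_of_notMem hk, pow_succ]; ring

theorem SS_diff (j : Fin n) (C : Fin n → Matrix (Fin n) (Fin n) R) (b : Fin (q+1) → Fin n → R)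
    (x : Fin (q+1) → Fin n → R) (hx : ∀ k, x k j = 0) :
    ∑ S : Finset (Fin (q+1)), (-1) ^ S.card *
      SS j (fun i => fun a a' => C i a a' + ∑ k ∈ S, b k i * wd x k a a') = 0 := by
  have e1 : ∀ S : Finset (Fin (q+1)),
      SS j (fun i => fun a a' => C i a a' + ∑ k ∈ S, b k i * wd x k a a') =
        ∑ r : Fin n → Option (Fin (q+1)), SS j (fun i => gS C b x S i (r i)) := by
    intro S
    rw [← SS_expand]
    simp only [gS_sum]
  simp only [e1, Finset.mul_sum]
  rw [Finset.sum_comm]
  apply Finset.sum_eq_zero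
  intro r _
  by_cases hr : ∀ k : Fin (q+1), ∃ i, r i = some k
  · choose l hl using hr
    have hinj : Function.Injective l := by
      intro k k' h
      have h1 := hl k
      rw [h, hl k'] at h1
      exact (Option.some.inj h1).symm
    apply Finset.sum_eq_zero
    intro S _
    by_cases hall : ∀ k, k ∈ S
    · rw [SS_cyc j (v := fun i => gS C b x S i (r i)) (x := x) (c := fun k => b k (l k)) hinj hx,
        mul_zero]
      intro k a a'
      simp only [hl k, gS]
      rw [if_pos (hall k)]
      rfl
    · push Not at hall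
      obtain ⟨k, hk⟩ := hall
      rw [SS_slot_zero j (i := l k), mul_zero]
      intro a a'
      simp only [hl k, gS]
      rw [if_neg hk]
  · push Not at hr
    obtain ⟨k, hk⟩ := hr
    refine Finset.sum_involution (fun S _ => tog k S) ?_ ?_ ?_ ?_
    · intro S _
      have e2 : (fun i => gS C b x (tog k S) i (r i)) = fun i => gS C b x S i (r i) := by
        funext i
        cases h : r i with
        | none => rfl
        | some k' =>
          have hne : k' ≠ k := by
            rintro rfl
            exact hk i h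
          funext a a'
          simp only [gS, mem_tog S hne]
      rw [e2, tog_card]
      ring
    · intro S _ _
      exact tog_ne k S
    · intro S _; exact Finset.mem_univ _
    · intro S _; exact tog_tog k S

end diff

/-! ### the top value -/

section top

variable {R : Type} [CommRing R] {N : ℕ}

theorem prod_single (ρ : Perm (Fin (N+1))) (g : Fin (N+1) → Fin (N+1)) (hg : ∃ k, ρ k ≠ g k) :
    ∏ k, (Pi.single (g k) (1 : R) : Fin (N+1) → R) (ρ k) = 0 := by
  obtain ⟨k, hk⟩ := hg
  exact Finset.prod_eq_zero (Finset.mem_univ k) (Pi.single_eq_of_ne hk _)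

theorem SS_top (hN : 1 ≤ N) :
    SS (0 : Fin (N+1)) (fun i => fun a b =>
      (Pi.single i (1 : R) : Fin (N+1) → R) a * (Pi.single (i+1) (1 : R) : Fin (N+1) → R) b -
      (Pi.single (i+1) (1 : R) : Fin (N+1) → R) a * (Pi.single i (1 : R) : Fin (N+1) → R) b)
      = 1 := by
  set x : Fin (N+1) → Fin (N+1) → R := fun k => Pi.single k 1 with hx
  set v : Fin (N+1) → Matrix (Fin (N+1)) (Fin (N+1)) R :=
    fun i => fun a b => x i a * x (i+1) b - x (i+1) a * x i b with hv
  have hone : (1 : Fin (N+1)) ≠ 0 := by
    intro h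
    have := congrArg Fin.val h
    rw [Fin.val_one'] at this
    rw [Nat.mod_eq_of_lt (by omega)] at this
    simp at this
  have hrot : ∀ k : Fin (N+1), k + 1 ≠ k := fun k h => hone (by simpa using h)
  have h0 := SS_eq_sum (R := R) (0 : Fin (N+1)) (v := v) (x := x) (c := fun _ => 1) (l := id)
    Function.injective_id (by intro k a b; simp [hv])
  change SS 0 v = 1
  rw [h0]
  have hne : (fun _ : Fin (N+1) => true) ≠ (fun _ => false) := by
    intro h
    exact Bool.noConfusion (congrFun h 0)
  have hr : ∀ ρ σ : Perm (Fin (N+1)), rst v (id : Fin (N+1) → Fin (N+1)) ρ σ = 1 := by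
    intro ρ σ
    unfold rst
    rw [Finset.image_id, Finset.sdiff_self, Finset.prod_empty]
  rw [← Finset.sum_subset (Finset.subset_univ {(fun _ => true), (fun _ => false)})]
  · rw [Finset.sum_pair hne]
    have hT : FE 0 v x (fun _ => 1) id (fun _ => true) = 0 := by
      unfold FE
      apply Finset.sum_eq_zero
      rintro ⟨ρ, σ⟩ _
      split_ifs with hlt
      · simp only at hlt ⊢
        by_cases h1 : ∀ k, ρ k = k + 1
        · by_cases h2 : ∀ k, σ k = k
          · exfalso
            have e1 : σ⁻¹ 0 = 0 := by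
              rw [Perm.inv_eq_iff_eq, h2]
            rw [e1] at hlt
            exact absurd hlt (by simp)
          · push Not at h2
            unfold PE
            have := prod_single (R := R) σ (fun k => k) h2
            simp only [fB, if_true, id, hx]
            rw [this]; ring
        · push Not at h1
          unfold PE
          have := prod_single (R := R) ρ (fun k => k+1) h1
          simp only [fA, if_true, id, hx]
          rw [this]; ring
      · rfl
    have hF : FE 0 v x (fun _ => 1) id (fun _ => false) = 1 := by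
      unfold FE
      rw [Finset.sum_eq_single ((1 : Perm (Fin (N+1))), finRotate (N+1))]
      · have e1 : ((1 : Perm (Fin (N+1)))⁻¹ 0) < ((finRotate (N+1))⁻¹ 0) := by
          rw [inv_one, Perm.one_apply, Fin.pos_iff_ne_zero]
          intro h
          rw [Perm.inv_eq_iff_eq, finRotate_apply] at h
          exact hone (by simpa using h.symm)
        rw [if_pos e1]
        unfold PE
        rw [hr]
        simp [sn, sg, fA, fB, hx]
      · rintro ⟨ρ, σ⟩ _ hne'
        split_ifs with hlt
        · simp only
          by_cases h1 : ∀ k, ρ k = k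
          · by_cases h2 : ∀ k, σ k = k + 1
            · exfalso
              apply hne'
              have e1 : ρ = 1 := Equiv.ext h1
              have e2 : σ = finRotate (N+1) := Equiv.ext (fun k => by rw [h2, finRotate_apply])
              rw [e1, e2]
            · push Not at h2
              unfold PE
              have := prod_single (R := R) σ (fun k => k+1) h2
              simp only [fB, Bool.false_eq_true, if_false, id, hx]
              rw [this]; ring
          · push Not at h1
            unfold PE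
            have := prod_single (R := R) ρ (fun k => k) h1
            simp only [fA, Bool.false_eq_true, if_false, id, hx]
            rw [this]; ring
        · rfl
      · intro h; exact absurd (Finset.mem_univ _) h
    rw [hT, hF, zero_add]
  · intro ε _ hε
    simp only [Finset.mem_insert, Finset.mem_singleton, not_or] at hε
    rcases const_or ε with h | h | ⟨k, h1, h2⟩
    · exact absurd h hε.1
    · exact absurd h hε.2
    · unfold FE
      apply Finset.sum_eq_zero
      rintro ⟨ρ, σ⟩ _
      split_ifs
      · simp only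
        by_cases h3 : ρ k = k + 1
        · have h4 : ρ (k+1) ≠ k + 1 := by
            intro h5
            exact hrot k (ρ.injective (h5.trans h3.symm))
          rw [PE_zero_A (k+1), mul_zero]
          simp only [fA, h2, Bool.false_eq_true, if_false, id, hx]
          exact Pi.single_eq_of_ne h4 _
        · rw [PE_zero_A k, mul_zero]
          simp only [fA, h1, if_true, id, hx]
          exact Pi.single_eq_of_ne h3 _
      · rfl

end top

/-! ### the mixed discriminant -/

section MD

variable {n : ℕ}

/-- the mixed discriminant -/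
def MD (v : Fin n → Matrix (Fin n) (Fin n) ℤ) : ℤ :=
  ∑ ρ : Perm (Fin n), ∑ σ : Perm (Fin n), sn ℤ ρ * (sn ℤ σ * PP v ρ σ)

/-- the half sum, with both signs -/
def HH (j : Fin n) (v : Fin n → Matrix (Fin n) (Fin n) ℤ) : ℤ :=
  ∑ p : Perm (Fin n) × Perm (Fin n),
    if p.1⁻¹ j < p.2⁻¹ j then sn ℤ p.1 * (sn ℤ p.2 * PP v p.1 p.2) else 0

def Alt (v : Fin n → Matrix (Fin n) (Fin n) ℤ) : Prop := ∀ i a b, v i a b = - v i b a

theorem Alt.diag {v : Fin n → Matrix (Fin n) (Fin n) ℤ} (h : Alt v) (i a : Fin n) :
    v i a a = 0 := by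
  have := h i a a
  omega

theorem MD_eq (hn : Even n) (j : Fin n) {v : Fin n → Matrix (Fin n) (Fin n) ℤ} (hv : Alt v) :
    MD v = 2 * HH j v := by
  have e1 : MD v = ∑ p : Perm (Fin n) × Perm (Fin n), sn ℤ p.1 * (sn ℤ p.2 * PP v p.1 p.2) := by
    unfold MD
    rw [← Finset.univ_product_univ, Finset.sum_product]
  have e2 : HH j v = ∑ p : Perm (Fin n) × Perm (Fin n),
      if p.2⁻¹ j < p.1⁻¹ j then sn ℤ p.1 * (sn ℤ p.2 * PP v p.1 p.2) else 0 := by
    unfold HH
    rw [← Equiv.sum_comp (Equiv.prodComm (Perm (Fin n)) (Perm (Fin n)))]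
    apply Finset.sum_congr rfl
    rintro ⟨ρ, σ⟩ _
    change (if σ⁻¹ j < ρ⁻¹ j then sn ℤ σ * (sn ℤ ρ * PP v σ ρ) else 0) =
      (if σ⁻¹ j < ρ⁻¹ j then sn ℤ ρ * (sn ℤ σ * PP v ρ σ) else 0)
    have : PP v σ ρ = PP v ρ σ := by
      unfold PP
      have h1 : ∀ i, v i (σ i) (ρ i) = (-1) * v i (ρ i) (σ i) := by
        intro i; rw [hv i]; ring
      simp only [h1, Finset.prod_mul_distrib, Finset.prod_const, Finset.card_univ,
        Fintype.card_fin, hn.neg_one_pow, one_mul]
    rw [this]
    by_cases h : σ⁻¹ j < ρ⁻¹ j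
    · rw [if_pos h, if_pos h]; ring
    · rw [if_neg h, if_neg h]
  have e3 : 2 * HH j v = HH j v + HH j v := by ring
  rw [e3]
  nth_rewrite 2 [e2]
  unfold HH
  rw [e1, ← Finset.sum_add_distrib]
  apply Finset.sum_congr rfl
  rintro ⟨ρ, σ⟩ _
  simp only
  rcases lt_trichotomy (ρ⁻¹ j) (σ⁻¹ j) with h | h | h
  · rw [if_pos h, if_neg h.not_gt, add_zero]
  · rw [if_neg (by rw [h]; exact lt_irrefl _), if_neg (by rw [h]; exact lt_irrefl _), add_zero]
    have : PP v ρ σ = 0 := by
      unfold PP
      apply Finset.prod_eq_zero (Finset.mem_univ (ρ⁻¹ j))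
      have h1 : σ (ρ⁻¹ j) = j := by rw [h]; simp
      have h2 : ρ (ρ⁻¹ j) = j := by simp
      rw [h1, h2]
      exact hv.diag _ _
    rw [this]; ring
  · rw [if_neg h.not_gt, if_pos h, zero_add]

theorem MD_right (g : Matrix (Fin n) (Fin n) ℤ) (v : Fin n → Matrix (Fin n) (Fin n) ℤ) :
    MD (fun i => v i * g.transpose) = g.det * MD v := by
  unfold MD
  rw [Finset.mul_sum]
  apply Finset.sum_congr rfl
  intro ρ _
  have key : ∀ w : Fin n → Matrix (Fin n) (Fin n) ℤ,
      ∑ σ : Perm (Fin n), sn ℤ ρ * (sn ℤ σ * PP w ρ σ) =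
        sn ℤ ρ * (Matrix.of (fun a i => w i (ρ i) a)).det := by
    intro w
    rw [Matrix.det_apply', Finset.mul_sum]
    apply Finset.sum_congr rfl
    intro σ _
    simp [sn, PP]
  rw [key, key]
  have : (Matrix.of (fun a i => (v i * g.transpose) (ρ i) a)) =
      g * (Matrix.of (fun a i => v i (ρ i) a)) := by
    ext a i
    simp only [Matrix.of_apply, Matrix.mul_apply, Matrix.transpose_apply]
    apply Finset.sum_congr rfl
    intro k _
    ring
  rw [this, Matrix.det_mul]
  ring

theorem MD_left (g : Matrix (Fin n) (Fin n) ℤ) (v : Fin n → Matrix (Fin n) (Fin n) ℤ) :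
    MD (fun i => g * v i) = g.det * MD v := by
  have hc : ∀ w : Fin n → Matrix (Fin n) (Fin n) ℤ, MD w =
      ∑ σ : Perm (Fin n), ∑ ρ : Perm (Fin n), sn ℤ ρ * (sn ℤ σ * PP w ρ σ) := by
    intro w; unfold MD; rw [Finset.sum_comm]
  rw [hc, hc, Finset.mul_sum]
  apply Finset.sum_congr rfl
  intro σ _
  have key : ∀ w : Fin n → Matrix (Fin n) (Fin n) ℤ,
      ∑ ρ : Perm (Fin n), sn ℤ ρ * (sn ℤ σ * PP w ρ σ) =
        sn ℤ σ * (Matrix.of (fun a i => w i a (σ i))).det := by
    intro w
    rw [Matrix.det_apply', Finset.mul_sum]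
    apply Finset.sum_congr rfl
    intro ρ _
    simp only [sn, PP, Matrix.of_apply, Int.cast_id]
    ring
  rw [key, key]
  have : (Matrix.of (fun a i => (g * v i) a (σ i))) =
      g * (Matrix.of (fun a i => v i a (σ i))) := by
    ext a i
    simp only [Matrix.of_apply, Matrix.mul_apply]
  rw [this, Matrix.det_mul]
  ring

theorem Alt.conj {v : Fin n → Matrix (Fin n) (Fin n) ℤ} (h : Alt v)
    (g : Matrix (Fin n) (Fin n) ℤ) : Alt (fun i => g * v i * g.transpose) := by
  intro i a b
  have hT : (v i).transpose = - v i := by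
    ext a b
    rw [Matrix.transpose_apply, Matrix.neg_apply, h i b a]
  have h2 : (g * v i * g.transpose).transpose = - (g * v i * g.transpose) := by
    rw [Matrix.transpose_mul, Matrix.transpose_mul, Matrix.transpose_transpose, hT]
    simp [Matrix.mul_assoc]
  have h3 := congrFun (congrFun h2 b) a
  rw [Matrix.transpose_apply, Matrix.neg_apply] at h3
  exact h3

theorem HH_conj (hn : Even n) (j j' : Fin n) {v : Fin n → Matrix (Fin n) (Fin n) ℤ} (hv : Alt v)
    (g : Matrix (Fin n) (Fin n) ℤ) (hg : g.det = 1) :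
    HH j (fun i => g * v i * g.transpose) = HH j' v := by
  have h1 := MD_eq hn j (hv.conj g)
  have h2 := MD_eq hn j' hv
  have h3 : MD (fun i => g * v i * g.transpose) = MD v := by
    rw [MD_right g (fun i => g * v i), MD_left, hg]; ring
  omega

theorem sn_two (ρ : Perm (Fin n)) : ((sn ℤ ρ : ℤ) : ZMod 2) = 1 := by
  unfold sn
  rcases Int.units_eq_one_or (Perm.sign ρ) with h | h
  · rw [h]; simp
  · rw [h]; decide

theorem SS_HH (j : Fin n) (v : Fin n → Matrix (Fin n) (Fin n) ℤ) :
    ((SS j v : ℤ) : ZMod 2) = ((HH j v : ℤ) : ZMod 2) := by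
  unfold SS HH
  push_cast
  apply Finset.sum_congr rfl
  intro p _
  split_ifs
  · rw [sn_two, sn_two]; ring
  · rfl

/-- **invariance modulo two** -/
theorem SS_conj (hn : Even n) (j j' : Fin n) {v : Fin n → Matrix (Fin n) (Fin n) ℤ}
    (hv : Alt v) (g : Matrix (Fin n) (Fin n) ℤ) (hg : g.det = 1) :
    ((SS j (fun i => g * v i * g.transpose) : ℤ) : ZMod 2) = ((SS j' v : ℤ) : ZMod 2) := by
  rw [SS_HH, SS_HH, HH_conj hn j j' hv g hg]

end MD

end Pool.Agent.W363.TF
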