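import Mathlib

set_option autoImplicit false

/-!
# The truncated tensor group of degree five over a commutative ring
-/

namespace Pool.Agent.W363.TF

/-- the commutator -/
def cm {T : Type*} [Group T] (a b : T) : T := a * b * a⁻¹ * b⁻¹

theorem map_cm {T T' : Type*} [Group T] [Group T'] (f : T →* T') (a b : T) :
    f (cm a b) = cm (f a) (f b) := by simp [cm]

theorem cm_mul {T : Type*} [Group T] (a b : T) : cm a b * (b * a) = a * b := by
  unfold cm; group

theorem cm_eq_one {T : Type*} [Group T] {a b : T} (h : a * b = b * a) : cm a b = 1 := by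
  unfold cm; rw [h]; group

/-- formal sums `1 + a + b + c + d + e` with `a, …, e` tensors of degree 1, …, 5 -/
@[ext] structure T5 (R : Type) where
  a : ℕ → R
  b : ℕ → ℕ → R
  c : ℕ → ℕ → ℕ → R
  d : ℕ → ℕ → ℕ → ℕ → R
  e : ℕ → ℕ → ℕ → ℕ → ℕ → R

namespace T5

variable {R : Type} [CommRing R]

instance : Mul (T5 R) := ⟨fun x y =>
  { a := fun i => x.a i + y.a i
    b := fun i j => x.b i j + y.b i j + x.a i * y.a j
    c := fun i j k => x.c i j k + y.c i j k + x.a i * y.b j k + x.b i j * y.a k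
    d := fun i j k l => x.d i j k l + y.d i j k l + x.a i * y.c j k l + x.b i j * y.b k l +
      x.c i j k * y.a l
    e := fun i j k l m => x.e i j k l m + y.e i j k l m + x.a i * y.d j k l m +
      x.b i j * y.c k l m + x.c i j k * y.b l m + x.d i j k l * y.a m }⟩

instance : One (T5 R) :=
  ⟨⟨fun _ => 0, fun _ _ => 0, fun _ _ _ => 0, fun _ _ _ _ => 0, fun _ _ _ _ _ => 0⟩⟩

def ia (x : T5 R) : ℕ → R := fun i => - x.a i
def ib (x : T5 R) : ℕ → ℕ → R := fun i j => -(x.b i j + ia x i * x.a j)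
def ic (x : T5 R) : ℕ → ℕ → ℕ → R := fun i j k =>
  -(x.c i j k + ia x i * x.b j k + ib x i j * x.a k)
def id' (x : T5 R) : ℕ → ℕ → ℕ → ℕ → R := fun i j k l =>
  -(x.d i j k l + ia x i * x.c j k l + ib x i j * x.b k l + ic x i j k * x.a l)
def ie (x : T5 R) : ℕ → ℕ → ℕ → ℕ → ℕ → R := fun i j k l m =>
  -(x.e i j k l m + ia x i * x.d j k l m + ib x i j * x.c k l m + ic x i j k * x.b l m +
    id' x i j k l * x.a m)

instance : Inv (T5 R) := ⟨fun x => ⟨ia x, ib x, ic x, id' x, ie x⟩⟩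

theorem mul_a (x y : T5 R) (i : ℕ) : (x * y).a i = x.a i + y.a i := rfl
theorem mul_b (x y : T5 R) (i j : ℕ) : (x * y).b i j = x.b i j + y.b i j + x.a i * y.a j := rfl
theorem mul_c (x y : T5 R) (i j k : ℕ) : (x * y).c i j k =
  x.c i j k + y.c i j k + x.a i * y.b j k + x.b i j * y.a k := rfl
theorem mul_d (x y : T5 R) (i j k l : ℕ) : (x * y).d i j k l =
  x.d i j k l + y.d i j k l + x.a i * y.c j k l + x.b i j * y.b k l + x.c i j k * y.a l := rfl
theorem mul_e (x y : T5 R) (i j k l m : ℕ) : (x * y).e i j k l m =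
  x.e i j k l m + y.e i j k l m + x.a i * y.d j k l m +
      x.b i j * y.c k l m + x.c i j k * y.b l m + x.d i j k l * y.a m := rfl
theorem one_a (i : ℕ) : (1 : T5 R).a i = 0 := rfl
theorem one_b (i j : ℕ) : (1 : T5 R).b i j = 0 := rfl
theorem one_c (i j k : ℕ) : (1 : T5 R).c i j k = 0 := rfl
theorem one_d (i j k l : ℕ) : (1 : T5 R).d i j k l = 0 := rfl
theorem one_e (i j k l m : ℕ) : (1 : T5 R).e i j k l m = 0 := rfl
theorem inv_a (x : T5 R) (i : ℕ) : (x⁻¹).a i = ia x i := rfl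
theorem inv_b (x : T5 R) (i j : ℕ) : (x⁻¹).b i j = ib x i j := rfl
theorem inv_c (x : T5 R) (i j k : ℕ) : (x⁻¹).c i j k = ic x i j k := rfl
theorem inv_d (x : T5 R) (i j k l : ℕ) : (x⁻¹).d i j k l = id' x i j k l := rfl
theorem inv_e (x : T5 R) (i j k l m : ℕ) : (x⁻¹).e i j k l m = ie x i j k l m := rfl

instance : Group (T5 R) := Group.ofLeftAxioms
  (by
    intro x y z
    ext
    · simp only [mul_a]; ring
    · simp only [mul_a, mul_b]; ring
    · simp only [mul_a, mul_b, mul_c]; ring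
    · simp only [mul_a, mul_b, mul_c, mul_d]; ring
    · simp only [mul_a, mul_b, mul_c, mul_d, mul_e]; ring)
  (by
    intro x
    ext
    · simp only [mul_a, one_a]; ring
    · simp only [mul_b, one_a, one_b]; ring
    · simp only [mul_c, one_a, one_b, one_c]; ring
    · simp only [mul_d, one_a, one_b, one_c, one_d]; ring
    · simp only [mul_e, one_a, one_b, one_c, one_d, one_e]; ring)
  (by
    intro x
    ext
    · simp only [mul_a, inv_a, one_a, ia]; ring
    · simp only [mul_b, inv_a, inv_b, one_b, ib]; ring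
    · simp only [mul_c, inv_a, inv_b, inv_c, one_c, ic]; ring
    · simp only [mul_d, inv_a, inv_b, inv_c, inv_d, one_d, id']; ring
    · simp only [mul_e, inv_a, inv_b, inv_c, inv_d, inv_e, one_e, ie]; ring)

/-! ### the filtration -/

def D2 (x : T5 R) : Prop := ∀ i, x.a i = 0
def D3 (x : T5 R) : Prop := D2 x ∧ ∀ i j, x.b i j = 0
def D4 (x : T5 R) : Prop := D3 x ∧ ∀ i j k, x.c i j k = 0
def D5 (x : T5 R) : Prop := D4 x ∧ ∀ i j k l, x.d i j k l = 0

theorem cm_D2 (x y : T5 R) : D2 (cm x y) := by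
  intro i
  have h := congrArg (fun t : T5 R => t.a i) (cm_mul x y)
  simp only [mul_a] at h
  linear_combination h

theorem cm_b (x y : T5 R) (i j : ℕ) : (cm x y).b i j = x.a i * y.a j - y.a i * x.a j := by
  have h := congrArg (fun t : T5 R => t.b i j) (cm_mul x y)
  simp only [mul_a, mul_b] at h
  rw [cm_D2 x y i] at h
  linear_combination h

theorem cm_D3 {x : T5 R} (y : T5 R) (hx : D2 x) : D3 (cm x y) := by
  refine ⟨cm_D2 x y, fun i j => ?_⟩
  rw [cm_b, hx, hx]; ring

theorem cm_c {x : T5 R} (y : T5 R) (hx : D2 x) (i j k : ℕ) :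
    (cm x y).c i j k = x.b i j * y.a k - y.a i * x.b j k := by
  have h := congrArg (fun t : T5 R => t.c i j k) (cm_mul x y)
  obtain ⟨h1, h2⟩ := cm_D3 y hx
  simp only [mul_a, mul_b, mul_c, h1 i, h2 i j, hx i, hx k] at h
  linear_combination h

theorem cm_D4 {x : T5 R} (y : T5 R) (hx : D3 x) : D4 (cm x y) := by
  refine ⟨cm_D3 y hx.1, fun i j k => ?_⟩
  rw [cm_c y hx.1, hx.2, hx.2]; ring

theorem cm_d {x : T5 R} (y : T5 R) (hx : D3 x) (i j k l : ℕ) :
    (cm x y).d i j k l = x.c i j k * y.a l - y.a i * x.c j k l := by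
  have h := congrArg (fun t : T5 R => t.d i j k l) (cm_mul x y)
  obtain ⟨⟨h1, h2⟩, h3⟩ := cm_D4 y hx
  simp only [mul_a, mul_b, mul_c, mul_d, h1 i, h2 i j, h3 i j k, hx.1 i, hx.1 l, hx.2 i j,
    hx.2 k l] at h
  linear_combination h

theorem cm_D5 {x : T5 R} (y : T5 R) (hx : D4 x) : D5 (cm x y) := by
  refine ⟨cm_D4 y hx.1, fun i j k l => ?_⟩
  rw [cm_d y hx.1, hx.2, hx.2]; ring

/-- elements of the last term of the filtration are central -/
theorem D5.comm {t : T5 R} (h : D5 t) (s : T5 R) : t * s = s * t := by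
  obtain ⟨⟨⟨h1, h2⟩, h3⟩, h4⟩ := h
  replace h1 : ∀ i, t.a i = 0 := h1
  ext
  · simp only [mul_a, h1]; ring
  · simp only [mul_b, h1, h2]; ring
  · simp only [mul_c, h1, h2, h3]; ring
  · simp only [mul_d, h1, h2, h3, h4]; ring
  · simp only [mul_e, h1, h2, h3, h4]; ring

/-- the commutator of an element of degree two and an element of degree three -/
theorem cm_D23 {x y : T5 R} (hx : D2 x) (hy : D3 y) : D5 (cm x y) ∧
    ∀ i j k l m, (cm x y).e i j k l m = x.b i j * y.c k l m - y.c i j k * x.b l m := by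
  have h1 : ∀ i, (cm x y).a i = 0 := cm_D2 x y
  have h2 : ∀ i j, (cm x y).b i j = 0 := by
    intro i j; rw [cm_b, hx, hx]; ring
  have h3 : ∀ i j k, (cm x y).c i j k = 0 := by
    intro i j k; rw [cm_c y hx, hy.1, hy.1]; ring
  have h4 : ∀ i j k l, (cm x y).d i j k l = 0 := by
    intro i j k l
    have h := congrArg (fun t : T5 R => t.d i j k l) (cm_mul x y)
    simp only [mul_a, mul_b, mul_c, mul_d, h1 i, h2 i j, h3 i j k, hx i, hx l, hy.1 i, hy.1 l,
      hy.2 i j, hy.2 k l] at h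
    linear_combination h
  refine ⟨⟨⟨⟨h1, h2⟩, h3⟩, h4⟩, fun i j k l m => ?_⟩
  have h := congrArg (fun t : T5 R => t.e i j k l m) (cm_mul x y)
  simp only [mul_a, mul_b, mul_c, mul_d, mul_e, h1 i, h2 i j, h3 i j k, h4 i j k l, hx i, hx m,
    hy.1 i, hy.1 m, hy.2 i j, hy.2 l m] at h
  linear_combination h

/-- `[[x, y], [a, b, b]]` -/
def uq {T : Type*} [Group T] (x y a b : T) : T := cm (cm x y) (cm (cm a b) b)

theorem map_uq {T T' : Type*} [Group T] [Group T'] (f : T →* T') (x y a b : T) :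
    f (uq x y a b) = uq (f x) (f y) (f a) (f b) := by simp [uq, map_cm]

theorem uq_D5 (x y a b : T5 R) : D5 (uq x y a b) :=
  (cm_D23 (cm_D2 x y) (cm_D3 b (cm_D2 a b))).1

theorem uq_e (x y a b : T5 R) (i j k s : ℕ) : (uq x y a b).e i j k s s =
    ((a.a k * b.a s - b.a k * a.a s) * b.a s) * (x.a i * y.a j - y.a i * x.a j) := by
  unfold uq
  rw [(cm_D23 (cm_D2 x y) (cm_D3 b (cm_D2 a b))).2, cm_c b (cm_D2 a b), cm_b, cm_b, cm_b, cm_b]
  ring

/-- left-normed commutators of weight six -/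
def e6 {T : Type*} [Group T] (z : ℕ → T) : T :=
  cm (cm (cm (cm (cm (z 0) (z 1)) (z 2)) (z 3)) (z 4)) (z 5)

theorem map_e6 {T T' : Type*} [Group T] [Group T'] (f : T →* T') (z : ℕ → T) :
    f (e6 z) = e6 (fun i => f (z i)) := by simp [e6, map_cm]

theorem e6_one (z : ℕ → T5 R) : e6 z = 1 := by
  unfold e6
  exact cm_eq_one ((cm_D5 _ (cm_D4 _ (cm_D3 _ (cm_D2 _ _)))).comm _)

/-- shifting the top component -/
def sh (t : T5 R) (e : ℕ → ℕ → ℕ → ℕ → ℕ → R) : T5 R :=
  { t with e := fun i j k l m => t.e i j k l m + e i j k l m }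

theorem mul_D5 {u : T5 R} (h : D5 u) (t : T5 R) : t * u = sh t u.e := by
  obtain ⟨⟨⟨h1, h2⟩, h3⟩, h4⟩ := h
  replace h1 : ∀ i, u.a i = 0 := h1
  ext
  · simp only [mul_a, h1, sh]; ring
  · simp only [mul_b, h1, h2, sh]; ring
  · simp only [mul_c, h1, h2, h3, sh]; ring
  · simp only [mul_d, h1, h2, h3, h4, sh]; ring
  · simp only [mul_e, h1, h2, h3, h4, sh]; ring

theorem sh_sh (t : T5 R) (e e' : ℕ → ℕ → ℕ → ℕ → ℕ → R) :
    sh (sh t e) e' = sh t (fun i j k l m => e i j k l m + e' i j k l m) := by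
  unfold sh
  ext
  · rfl
  · rfl
  · rfl
  · rfl
  · simp only []; ring

theorem sh_zero (t : T5 R) : sh t (fun _ _ _ _ _ => 0) = t := by
  unfold sh
  ext
  · rfl
  · rfl
  · rfl
  · rfl
  · simp only [add_zero]

theorem D5_sh {t : T5 R} {e : ℕ → ℕ → ℕ → ℕ → ℕ → R} : D5 (sh t e) ↔ D5 t := Iff.rfl

/-- functoriality in the ring -/
def mp {S : Type} [CommRing S] (φ : R →+* S) : T5 R →* T5 S where
  toFun x :=
    { a := fun i => φ (x.a i)
      b := fun i j => φ (x.b i j)
      c := fun i j k => φ (x.c i j k)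
      d := fun i j k l => φ (x.d i j k l)
      e := fun i j k l m => φ (x.e i j k l m) }
  map_one' := by
    ext
    · exact map_zero φ
    · exact map_zero φ
    · exact map_zero φ
    · exact map_zero φ
    · exact map_zero φ
  map_mul' x y := by
    ext
    · simp only [mul_a, map_add]
    · simp only [mul_b, map_add, map_mul]
    · simp only [mul_c, map_add, map_mul]
    · simp only [mul_d, map_add, map_mul]
    · simp only [mul_e, map_add, map_mul]

theorem mp_a {S : Type} [CommRing S] (φ : R →+* S) (x : T5 R) (i : ℕ) :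
    (mp φ x).a i = φ (x.a i) := rfl

theorem mp_e {S : Type} [CommRing S] (φ : R →+* S) (x : T5 R) (i j k l m : ℕ) :
    (mp φ x).e i j k l m = φ (x.e i j k l m) := rfl

theorem mp_D5 {S : Type} [CommRing S] (φ : R →+* S) {x : T5 R} (h : D5 x) : D5 (mp φ x) := by
  obtain ⟨⟨⟨h1, h2⟩, h3⟩, h4⟩ := h
  refine ⟨⟨⟨fun i => ?_, fun i j => ?_⟩, fun i j k => ?_⟩, fun i j k l => ?_⟩
  · change φ (x.a i) = 0
    rw [h1, map_zero]
  · change φ (x.b i j) = 0
    rw [h2, map_zero]
  · change φ (x.c i j k) = 0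
    rw [h3, map_zero]
  · change φ (x.d i j k l) = 0
    rw [h4, map_zero]

/-! ### torsion -/

theorem pow_a (x : T5 R) (n : ℕ) (i : ℕ) : (x ^ n).a i = n * x.a i := by
  induction n with
  | zero => simp [one_a]
  | succ n ih => rw [pow_succ, mul_a, ih]; push_cast; ring

theorem pow_b {x : T5 R} (h : D2 x) (n : ℕ) (i j : ℕ) : (x ^ n).b i j = n * x.b i j := by
  induction n with
  | zero => simp [one_b]
  | succ n ih => rw [pow_succ, mul_b, ih, h j]; push_cast; ring

theorem pow_c {x : T5 R} (h : D3 x) (n : ℕ) (i j k : ℕ) : (x ^ n).c i j k = n * x.c i j k := by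
  induction n with
  | zero => simp [one_c]
  | succ n ih => rw [pow_succ, mul_c, ih, h.1 k, h.2 j k]; push_cast; ring

theorem pow_d {x : T5 R} (h : D4 x) (n : ℕ) (i j k l : ℕ) :
    (x ^ n).d i j k l = n * x.d i j k l := by
  induction n with
  | zero => simp [one_d]
  | succ n ih => rw [pow_succ, mul_d, ih, h.1.1 l, h.1.2 k l, h.2 j k l]; push_cast; ring

theorem pow_e {x : T5 R} (h : D5 x) (n : ℕ) (i j k l m : ℕ) :
    (x ^ n).e i j k l m = n * x.e i j k l m := by
  induction n with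
  | zero => simp [one_e]
  | succ n ih =>
    rw [pow_succ, mul_e, ih, h.1.1.1 m, h.1.1.2 l m, h.1.2 k l m, h.2 j k l m]; push_cast; ring

theorem torsionFree (x : T5 ℤ) (n : ℕ) (hn : n ≠ 0) (h : x ^ n = 1) : x = 1 := by
  have hz : ∀ y : ℤ, (n : ℤ) * y = 0 → y = 0 := by
    intro y hy
    rcases mul_eq_zero.mp hy with h | h
    · exact absurd (by exact_mod_cast h) hn
    · exact h
  have h2 : D2 x := fun i => hz _ (by rw [← pow_a, h, one_a])
  have h3 : D3 x := ⟨h2, fun i j => hz _ (by rw [← pow_b h2, h, one_b])⟩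
  have h4 : D4 x := ⟨h3, fun i j k => hz _ (by rw [← pow_c h3, h, one_c])⟩
  have h5 : D5 x := ⟨h4, fun i j k l => hz _ (by rw [← pow_d h4, h, one_d])⟩
  ext i
  · exact h2 i
  · exact h3.2 _ _
  · exact h4.2 _ _ _
  · exact h5.2 _ _ _ _
  · exact hz _ (by rw [← pow_e h5, h, one_e])

end T5

end Pool.Agent.W363.TF
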