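import Mathlib
import Pool.Agent.W363.TF.T5
import Pool.Agent.W363.TF.Disc2

set_option autoImplicit false

/-!
# The test groups and the words
-/

namespace Pool.Agent.W363.TF

open T5

/-! ### functions on a group extended by the group -/

@[ext] structure WG (T A : Type) where
  f : T → A
  t : T

namespace WG

variable {T A : Type} [Group T] [AddCommGroup A]

instance : Mul (WG T A) := ⟨fun x y => ⟨fun s => x.f s + y.f (s * x.t), x.t * y.t⟩⟩
instance : One (WG T A) := ⟨⟨fun _ => 0, 1⟩⟩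
instance : Inv (WG T A) := ⟨fun x => ⟨fun s => - x.f (s * x.t⁻¹), x.t⁻¹⟩⟩

theorem mul_f (x y : WG T A) (s : T) : (x * y).f s = x.f s + y.f (s * x.t) := rfl
theorem mul_t (x y : WG T A) : (x * y).t = x.t * y.t := rfl
theorem one_f (s : T) : (1 : WG T A).f s = 0 := rfl
theorem one_t : (1 : WG T A).t = 1 := rfl
theorem inv_f (x : WG T A) (s : T) : (x⁻¹).f s = - x.f (s * x.t⁻¹) := rfl
theorem inv_t (x : WG T A) : (x⁻¹).t = x.t⁻¹ := rfl

instance : Group (WG T A) := Group.ofLeftAxioms
  (by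
    intro x y z
    ext
    · simp only [mul_f, mul_t, mul_assoc, add_assoc]
    · simp only [mul_t, mul_assoc])
  (by
    intro x
    ext
    · simp only [mul_f, one_f, one_t, mul_one, zero_add]
    · simp only [mul_t, one_t, one_mul])
  (by
    intro x
    ext
    · simp only [mul_f, inv_f, one_f, inv_t, neg_add_cancel]
    · simp only [mul_t, inv_t, one_t, inv_mul_cancel])

def proj : WG T A →* T where
  toFun := fun x => x.t
  map_one' := rfl
  map_mul' := fun _ _ => rfl

/-- difference operator -/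
def dl (u : T) (f : T → A) : T → A := fun s => f s - f (s * u)

theorem cm_of {e : WG T A} (he : e.t = 1) (g : WG T A) :
    (cm e g).t = 1 ∧ (cm e g).f = dl g.t e.f := by
  constructor
  · simp only [cm, mul_t, inv_t, he]; group
  · funext s
    simp only [cm, mul_f, mul_t, inv_f, inv_t, he, dl]
    have e1 : s * (1 * g.t) * 1⁻¹ = s * g.t := by group
    have e2 : s * (1 * g.t * 1⁻¹) * g.t⁻¹ = s := by group
    rw [e1, e2, mul_one]
    abel

end WG

open WG

section chain

variable {T A : Type} [Group T] [AddCommGroup A]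

def chain {T : Type} [Group T] (e : T) (u : ℕ → T) : ℕ → T
  | 0 => e
  | k+1 => cm (chain e u k) (u k)

theorem map_chain {T T' : Type} [Group T] [Group T'] (φ : T →* T') (e : T) (u : ℕ → T) (k : ℕ) :
    φ (chain e u k) = chain (φ e) (fun i => φ (u i)) k := by
  induction k with
  | zero => rfl
  | succ k ih => rw [chain, chain, map_cm, ih]

def dls (u : ℕ → T) : ℕ → (T → A) → (T → A)
  | 0, f => f
  | k+1, f => dl (u k) (dls u k f)

theorem chain_of {e : WG T A} (he : e.t = 1) (u : ℕ → WG T A) (k : ℕ) :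
    (chain e u k).t = 1 ∧ (chain e u k).f = dls (fun i => (u i).t) k e.f := by
  induction k with
  | zero => exact ⟨he, rfl⟩
  | succ k ih =>
    have := cm_of ih.1 (u k)
    refine ⟨this.1, ?_⟩
    rw [chain, this.2, ih.2]; rfl

theorem dls_add (u : ℕ → T) (k : ℕ) (f g : T → A) :
    dls u k (f + g) = dls u k f + dls u k g := by
  induction k with
  | zero => rfl
  | succ k ih =>
    funext s
    simp only [dls, dl, ih, Pi.add_apply]; abel

theorem dls_zero (u : ℕ → T) (k : ℕ) : dls u k (0 : T → A) = 0 := by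
  induction k with
  | zero => rfl
  | succ k ih =>
    funext s
    simp [dls, dl, ih]

theorem dls_neg (u : ℕ → T) (k : ℕ) (f : T → A) : dls u k (-f) = - dls u k f := by
  have h := dls_add u k f (-f)
  rw [add_neg_cancel, dls_zero] at h
  exact (neg_eq_of_add_eq_zero_right h.symm).symm

/-- right translation -/
def rt (t : T) (f : T → A) : T → A := fun s => f (s * t)

theorem dls_rt {u : ℕ → T} (hu : ∀ i s, u i * s = s * u i) (k : ℕ) (t : T) (f : T → A) :
    dls u k (rt t f) = rt t (dls u k f) := by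
  induction k with
  | zero => rfl
  | succ k ih =>
    funext s
    simp only [dls, dl, ih, rt]
    rw [mul_assoc, hu k t, ← mul_assoc]

theorem dl_eq (t : T) (f : T → A) : dl t f = f + -(rt t f) := by
  funext s; simp [dl, rt, sub_eq_add_neg]

theorem dls_dl {u : ℕ → T} (hu : ∀ i s, u i * s = s * u i) (k : ℕ) (t : T) (f : T → A) :
    dls u k (dl t f) = dl t (dls u k f) := by
  rw [dl_eq, dls_add, dls_neg, dls_rt hu, dl_eq]

def uu {T : Type} [Group T] (x a b : ℕ → T) (q : ℕ) : ℕ → T :=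
  fun k => uq (x k) (x ((k+1) % (q+1))) (a k) (b k)

end chain

/-! ### the words -/

abbrev F := FreeGroup ℕ

/-- `[z₀, …, z₅, u₀, …, u_q]` with `u_k = [[x_k, x_{k+1}], [a_k, b_k, b_k]]`, indices of the `x`
modulo `q+1` -/
def wrd (q : ℕ) : F :=
  chain (e6 (fun i => FreeGroup.of i)) (uu (fun k => FreeGroup.of (6+3*k))
    (fun k => FreeGroup.of (7+3*k)) (fun k => FreeGroup.of (8+3*k)) q) (q+1)

def van : F := cm (e6 (fun i => FreeGroup.of i)) (e6 (fun i => FreeGroup.of (6+i)))

theorem map_wrd {T : Type} [Group T] (φ : F →* T) (q : ℕ) :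
    φ (wrd q) = chain (e6 (fun i => φ (FreeGroup.of i)))
      (uu (fun k => φ (FreeGroup.of (6+3*k))) (fun k => φ (FreeGroup.of (7+3*k)))
        (fun k => φ (FreeGroup.of (8+3*k))) q) (q+1) := by
  unfold wrd
  rw [map_chain, map_e6]
  congr 1
  funext k
  simp only [uu, map_uq]

theorem map_van {T : Type} [Group T] (φ : F →* T) :
    φ van = cm (e6 (fun i => φ (FreeGroup.of i))) (e6 (fun i => φ (FreeGroup.of (6+i)))) := by
  unfold van
  rw [map_cm, map_e6, map_e6]

/-! ### the module -/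

variable {R : Type} [CommRing R]

theorem uu_D5 (x a b : ℕ → T5 R) (q : ℕ) (i : ℕ) : D5 (uu x a b q i) := uq_D5 _ _ _ _

theorem uu_comm (x a b : ℕ → T5 R) (q : ℕ) (i : ℕ) (s : T5 R) :
    uu x a b q i * s = s * uu x a b q i :=
  (uu_D5 x a b q i).comm s

/-- functions annihilated by the products of differences along cycles from `Y` -/
def MM (Y : Subgroup (T5 ℤ)) : AddSubgroup (T5 ℤ → ℤ) where
  carrier := {f | ∀ q, ∀ x a b : ℕ → T5 ℤ, (∀ i, x i ∈ Y) → dls (uu x a b q) (q+1) f = 0}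
  add_mem' := by
    intro f g hf hg q x a b hx
    rw [dls_add, hf q x a b hx, hg q x a b hx, add_zero]
  zero_mem' := by
    intro q x a b _
    rw [dls_zero]
  neg_mem' := by
    intro f hf q x a b hx
    rw [dls_neg, hf q x a b hx, neg_zero]

theorem MM_rt {Y : Subgroup (T5 ℤ)} {f : T5 ℤ → ℤ} (hf : f ∈ MM Y) (t : T5 ℤ) :
    rt t f ∈ MM Y := by
  intro q x a b hx
  rw [dls_rt (uu_comm x a b q), hf q x a b hx]
  rfl

/-- the torsion-free groups -/
def KZ (Y : Subgroup (T5 ℤ)) : Subgroup (WG (T5 ℤ) ℤ) where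
  carrier := {x | x.t ∈ Y ∧ x.f ∈ MM Y}
  mul_mem' := by
    intro x y hx hy
    refine ⟨Y.mul_mem hx.1 hy.1, ?_⟩
    have : (x * y).f = x.f + rt x.t y.f := rfl
    rw [this]
    exact AddSubgroup.add_mem _ hx.2 (MM_rt hy.2 _)
  one_mem' := ⟨Y.one_mem, (MM Y).zero_mem⟩
  inv_mem' := by
    intro x hx
    refine ⟨Y.inv_mem hx.1, ?_⟩
    have : (x⁻¹).f = - rt x.t⁻¹ x.f := rfl
    rw [this]
    exact AddSubgroup.neg_mem _ (MM_rt hx.2 _)

theorem pow_t {T A : Type} [Group T] [AddCommGroup A] (x : WG T A) (n : ℕ) :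
    (x ^ n).t = x.t ^ n := map_pow (proj (T := T) (A := A)) x n

theorem pow_f {T : Type} [Group T] {x : WG T ℤ} (hx : x.t = 1) (n : ℕ) (s : T) :
    (x ^ n).f s = n * x.f s := by
  induction n with
  | zero => simp [one_f]
  | succ n ih =>
    rw [pow_succ, mul_f, ih, pow_t, hx, one_pow, mul_one]; push_cast; ring

theorem WG_torsionFree (x : WG (T5 ℤ) ℤ) (n : ℕ) (hn : n ≠ 0) (h : x ^ n = 1) : x = 1 := by
  have h1 : x.t = 1 := by
    apply T5.torsionFree x.t n hn
    rw [← pow_t, h]; rfl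
  ext1
  · funext s
    have h2 := pow_f h1 n s
    rw [h, one_f] at h2
    rcases mul_eq_zero.mp h2.symm with h3 | h3
    · exact absurd (by exact_mod_cast h3) hn
    · rw [h3]; rfl
  · exact h1

theorem KZ_torsionFree (Y : Subgroup (T5 ℤ)) (x : KZ Y) (n : ℕ) (hn : n ≠ 0) (h : x ^ n = 1) :
    x = 1 := by
  apply Subtype.ext
  apply WG_torsionFree _ n hn
  exact congrArg Subtype.val h

theorem e6_t {A : Type} [AddCommGroup A] (z : ℕ → WG (T5 R) A) : (e6 z).t = 1 := by
  have : (e6 z).t = e6 (fun i => (z i).t) := map_e6 (proj (T := T5 R)) z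
  rw [this]
  exact e6_one _

theorem uu_t {A : Type} [AddCommGroup A] (x a b : ℕ → WG (T5 R) A) (q : ℕ) :
    (fun i => (uu x a b q i).t) =
      uu (fun i => (x i).t) (fun i => (a i).t) (fun i => (b i).t) q := by
  funext k
  exact map_uq (proj (T := T5 R)) _ _ _ _

theorem WG_van {A : Type} [AddCommGroup A] (ψ : F →* WG (T5 R) A) : ψ van = 1 := by
  rw [map_van]
  have h1 := e6_t (fun i => ψ (FreeGroup.of i))
  have h2 := e6_t (fun i => ψ (FreeGroup.of (6+i)))
  have h3 := cm_of h1 (e6 (fun i => ψ (FreeGroup.of (6+i))))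
  ext1
  · rw [h3.2, h2]
    funext s
    simp only [dl, mul_one, one_f, sub_self]
  · exact h3.1

theorem KZ_van (Y : Subgroup (T5 ℤ)) (φ : F →* KZ Y) : φ van = 1 := by
  apply (KZ Y).subtype_injective
  rw [map_one]
  exact WG_van ((KZ Y).subtype.comp φ)

theorem KZ_wrd (Y : Subgroup (T5 ℤ)) (q : ℕ) (φ : F →* KZ Y) : φ (wrd q) = 1 := by
  apply (KZ Y).subtype_injective
  rw [map_one]
  change ((KZ Y).subtype.comp φ) (wrd q) = 1
  rw [map_wrd]
  set ψ := (KZ Y).subtype.comp φ with hψ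
  have h1 := e6_t (fun i => ψ (FreeGroup.of i))
  have h3 := chain_of h1 (uu (fun k => ψ (FreeGroup.of (6+3*k)))
    (fun k => ψ (FreeGroup.of (7+3*k))) (fun k => ψ (FreeGroup.of (8+3*k))) q) (q+1)
  have hmem : (e6 (fun i => ψ (FreeGroup.of i))).f ∈ MM Y := by
    rw [← map_e6]
    exact (φ (e6 (fun i => FreeGroup.of i))).2.2
  ext1
  · rw [h3.2, uu_t]
    exact hmem q _ _ _ (fun i => (φ (FreeGroup.of (6+3*i))).2.1)
  · exact h3.1

/-! ### the function -/

def Cm (n : ℕ) (e : ℕ → ℕ → ℕ → ℕ → ℕ → R) (i : Fin n) : Matrix (Fin n) (Fin n) R := fun a b =>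
  if a < b then e a b (n+i) (2*n) (2*n) else if b < a then - e b a (n+i) (2*n) (2*n) else 0

theorem Cm_Alt (n : ℕ) (e : ℕ → ℕ → ℕ → ℕ → ℕ → ℤ) : Alt (Cm n e) := by
  intro i a b
  unfold Cm
  rcases lt_trichotomy a b with h | h | h
  · simp [h, h.not_gt]
  · subst h; simp
  · simp [h, h.not_gt]

theorem Cm_map {S : Type} [CommRing S] (φ : R →+* S) (n : ℕ) (e : ℕ → ℕ → ℕ → ℕ → ℕ → R)
    (i a b : Fin n) : φ (Cm n e i a b) = Cm n (fun p q r s t => φ (e p q r s t)) i a b := by
  unfold Cm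
  split_ifs
  · rfl
  · rw [map_neg]
  · exact map_zero φ

theorem Cm_add_sum (n : ℕ) {ι : Type} (e : ℕ → ℕ → ℕ → ℕ → ℕ → R)
    (g : ι → ℕ → ℕ → ℕ → ℕ → ℕ → R) (S : Finset ι) (i a b : Fin n) :
    Cm n (fun p q r s t => e p q r s t + ∑ k ∈ S, g k p q r s t) i a b =
      Cm n e i a b + ∑ k ∈ S, Cm n (g k) i a b := by
  unfold Cm
  rcases lt_trichotomy a b with h | h | h
  · simp [h]
  · subst h; simp
  · simp [h, h.not_gt]; ring

/-- the label -/
def lab (n : ℕ) (a b : T5 R) (i : Fin n) : R :=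
  (a.a (n+i) * b.a (2*n) - b.a (n+i) * a.a (2*n)) * b.a (2*n)

theorem Cm_uq (n : ℕ) (x y a b : T5 R) (i p p' : Fin n) :
    Cm n (uq x y a b).e i p p' = lab n a b i * (x.a p * y.a p' - y.a p * x.a p') := by
  unfold Cm lab
  rcases lt_trichotomy p p' with h | h | h
  · rw [if_pos h, uq_e]
  · subst h
    simp only [lt_self_iff_false, if_false]
    ring
  · rw [if_neg h.not_gt, if_pos h, uq_e]; ring

theorem dls_formula {u : ℕ → T5 R} (hu : ∀ i, D5 (u i)) (A : Type) [CommRing A]
    (f : T5 R → A) (k : ℕ) (s : T5 R) :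
    dls u k f s = ∑ S ∈ (Finset.range k).powerset, (-1) ^ S.card *
      f (sh s (fun a b c d e => ∑ i ∈ S, (u i).e a b c d e)) := by
  induction k generalizing s with
  | zero =>
    simp [dls, sh_zero]
  | succ k ih =>
    rw [Finset.range_add_one, Finset.sum_powerset_insert Finset.notMem_range_self]
    simp only [dls, dl]
    rw [ih, ih, sub_eq_add_neg, ← Finset.sum_neg_distrib]
    congr 1
    apply Finset.sum_congr rfl
    intro S hS
    have hk : k ∉ S := fun h => Finset.notMem_range_self (Finset.mem_powerset.mp hS h)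
    rw [mul_D5 (hu k), sh_sh, Finset.card_insert_of_notMem hk, pow_succ]
    have : (fun a b c d e => (u k).e a b c d e + ∑ i ∈ S, (u i).e a b c d e) =
        (fun a b c d e => ∑ i ∈ insert k S, (u i).e a b c d e) := by
      funext a b c d e
      rw [Finset.sum_insert hk]
    rw [this]
    ring

theorem sum_powerset_fin {A : Type} [AddCommMonoid A] (m : ℕ) (G : Finset ℕ → A) :
    ∑ S ∈ (Finset.range m).powerset, G S = ∑ S : Finset (Fin m), G (S.map Fin.valEmbedding) := by
  symm
  refine Finset.sum_bij' (fun S _ => S.map Fin.valEmbedding)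
    (fun S _ => Finset.univ.filter (fun k : Fin m => (k : ℕ) ∈ S)) ?_ ?_ ?_ ?_ ?_
  · intro S _
    rw [Finset.mem_powerset]
    intro x hx
    rw [Finset.mem_map] at hx
    obtain ⟨k, _, rfl⟩ := hx
    exact Finset.mem_range.mpr k.2
  · intro S _; exact Finset.mem_univ _
  · intro S _
    ext k
    simp only [Finset.mem_filter, Finset.mem_univ, true_and, Finset.mem_map,
      Fin.valEmbedding_apply]
    constructor
    · rintro ⟨a, ha, h⟩
      rwa [Fin.ext h] at ha
    · intro h
      exact ⟨k, h, rfl⟩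
  · intro S hS
    rw [Finset.mem_powerset] at hS
    ext x
    rw [Finset.mem_map]
    constructor
    · rintro ⟨k, hk, rfl⟩
      exact (Finset.mem_filter.mp hk).2
    · intro hx
      exact ⟨⟨x, Finset.mem_range.mp (hS hx)⟩, Finset.mem_filter.mpr ⟨Finset.mem_univ _, hx⟩, rfl⟩
  · intro S _; rfl

end Pool.Agent.W363.TF
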