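import Mathlib
import Pool.Agent.W363.TF.Grp

set_option autoImplicit false

/-!
# The test function and its integral lifts
-/

namespace Pool.Agent.W363.TF

open T5 WG

/-- reduction modulo two -/
def red : ℤ →+* ZMod 2 := Int.castRingHom (ZMod 2)

abbrev pi2 : T5 ℤ →* T5 (ZMod 2) := mp red

theorem sum_uu_e {R : Type} [CommRing R] {q : ℕ} (x a b : ℕ → T5 R) (n : ℕ) (e : ℕ → ℕ → ℕ → ℕ → ℕ → R)
    (S : Finset (Fin (q+1))) (i p p' : Fin n) :
    Cm n (fun p q' r s t => e p q' r s t +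
      ∑ k ∈ S.map Fin.valEmbedding, (uu x a b q k).e p q' r s t) i p p' =
    Cm n e i p p' + ∑ k ∈ S, lab n (a k) (b k) i *
      wd (fun (k : Fin (q+1)) (p : Fin n) => (x k).a p) k p p' := by
  rw [Cm_add_sum, Finset.sum_map]
  congr 1
  apply Finset.sum_congr rfl
  intro k _
  rw [Fin.valEmbedding_apply]
  unfold uu
  rw [Cm_uq]
  unfold wd
  have e3 : ((k : ℕ) + 1) % (q + 1) = ((k + 1 : Fin (q+1)) : ℕ) := by
    rw [Fin.val_add, Fin.val_one', Nat.add_mod_mod]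
  rw [e3]

/-- the subgroup of elements with equal coordinates `j`, `j'` -/
def YY (j j' : ℕ) : Subgroup (T5 ℤ) where
  carrier := {t | t.a j = t.a j'}
  mul_mem' := by
    intro x y hx hy
    change x.a j = x.a j' at hx
    change y.a j = y.a j' at hy
    change (x * y).a j = (x * y).a j'
    rw [mul_a, mul_a, hx, hy]
  one_mem' := rfl
  inv_mem' := by
    intro x hx
    change x.a j = x.a j' at hx
    change (x⁻¹).a j = (x⁻¹).a j'
    rw [inv_a, inv_a, ia, ia, hx]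

theorem mem_YY {j j' : ℕ} {t : T5 ℤ} : t ∈ YY j j' ↔ t.a j = t.a j' := Iff.rfl

/-- the transvection -/
def gg {n : ℕ} (j j' : Fin n) : Matrix (Fin n) (Fin n) ℤ := Matrix.transvection j j' (-1)

theorem gg_det {n : ℕ} {j j' : Fin n} (h : j ≠ j') : (gg j j').det = 1 :=
  Matrix.det_transvection_of_ne j j' h (-1)

theorem gg_mulVec {n : ℕ} (j j' : Fin n) (v : Fin n → ℤ) (h : v j = v j') :
    (gg j j').mulVec v j = 0 := by
  unfold gg Matrix.transvection
  rw [Matrix.add_mulVec, Matrix.one_mulVec, Pi.add_apply]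
  have : (Matrix.single j j' (-1 : ℤ)).mulVec v j = - v j' := by
    simp [Matrix.mulVec, dotProduct, Matrix.single_apply]
  rw [this, h]; ring

open Classical in
/-- the integral function -/
noncomputable def PhiZ {n : ℕ} (j j' : Fin n) (t : T5 ℤ) : ℤ :=
  if D5 (pi2 t) then SS j (fun i => gg j j' * Cm n t.e i * (gg j j').transpose) else 0

open Classical in
/-- the test function -/
noncomputable def Phi (N : ℕ) (t : T5 (ZMod 2)) : ZMod 2 :=
  if D5 t then SS (0 : Fin (N+1)) (Cm (N+1) t.e) else 0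

theorem PhiZ_mod {N : ℕ} (hN : Even (N+1)) {j j' : Fin (N+1)} (h : j ≠ j') (t : T5 ℤ) :
    ((PhiZ j j' t : ℤ) : ZMod 2) = Phi N (pi2 t) := by
  unfold PhiZ Phi
  by_cases hD : D5 (pi2 t)
  · rw [if_pos hD, if_pos hD, SS_conj hN j 0 (Cm_Alt _ _) _ (gg_det h)]
    have h1 := SS_map red (0 : Fin (N+1)) (Cm (N+1) t.e)
    simp only [Cm_map] at h1
    exact h1
  · rw [if_neg hD, if_neg hD, Int.cast_zero]

theorem wd_conj {n q : ℕ} (g : Matrix (Fin n) (Fin n) ℤ) (x : Fin (q+1) → Fin n → ℤ)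
    (k : Fin (q+1)) (a b : Fin n) :
    ∑ r, (∑ s, g a s * wd x k s r) * g b r = wd (fun k => g.mulVec (x k)) k a b := by
  unfold wd Matrix.mulVec dotProduct
  rw [Finset.sum_mul_sum, Finset.sum_mul_sum, ← Finset.sum_sub_distrib]
  simp only [Finset.sum_mul]
  rw [Finset.sum_comm]
  apply Finset.sum_congr rfl
  intro r _
  rw [← Finset.sum_sub_distrib]
  apply Finset.sum_congr rfl
  intro s _
  ring

def CS {n q : ℕ} (C : Matrix (Fin n) (Fin n) ℤ)
    (b : Fin (q+1) → ℤ) (x : Fin (q+1) → Fin n → ℤ) (S : Finset (Fin (q+1))) :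
    Matrix (Fin n) (Fin n) ℤ := fun p p' => C p p' + ∑ k ∈ S, b k * wd x k p p'

theorem CS_apply {n q : ℕ} (C : Matrix (Fin n) (Fin n) ℤ)
    (b : Fin (q+1) → ℤ) (x : Fin (q+1) → Fin n → ℤ) (S : Finset (Fin (q+1))) (p p' : Fin n) :
    CS C b x S p p' = C p p' + ∑ k ∈ S, b k * wd x k p p' := rfl

theorem conj_add {n q : ℕ} (g : Matrix (Fin n) (Fin n) ℤ) (C : Matrix (Fin n) (Fin n) ℤ)
    (b : Fin (q+1) → ℤ) (x : Fin (q+1) → Fin n → ℤ) (S : Finset (Fin (q+1))) :
    g * CS C b x S * g.transpose =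
      CS (g * C * g.transpose) b (fun k => g.mulVec (x k)) S := by
  ext p p'
  simp only [CS_apply, ← wd_conj, Matrix.mul_apply, Matrix.transpose_apply, mul_add, add_mul,
    Finset.sum_add_distrib]
  congr 1
  have h1 : ∀ r, (∑ s, g p s * ∑ k ∈ S, b k * wd x k s r) * g p' r =
      ∑ k ∈ S, b k * ((∑ s, g p s * wd x k s r) * g p' r) := by
    intro r
    simp only [Finset.mul_sum, Finset.sum_mul]
    rw [Finset.sum_comm]
    apply Finset.sum_congr rfl
    intro k _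
    apply Finset.sum_congr rfl
    intro s _
    ring
  simp only [h1]
  rw [Finset.sum_comm]
  simp only [Finset.mul_sum]

theorem PhiZ_mem {n : ℕ} (j j' : Fin n) : PhiZ j j' ∈ MM (YY j j') := by
  intro q x a b hx
  funext s
  rw [dls_formula (u := uu x a b q) (fun i => uu_D5 x a b q i) ℤ, sum_powerset_fin]
  by_cases hs : D5 (pi2 s)
  · have h1 : ∀ S : Finset (Fin (q+1)),
        PhiZ j j' (sh s (fun a' b' c d e => ∑ i ∈ S.map Fin.valEmbedding,
          (uu x a b q i).e a' b' c d e)) =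
        SS j (fun i => fun p p' => (gg j j' * Cm n s.e i * (gg j j').transpose) p p' +
          ∑ k ∈ S, lab n (a k) (b k) i *
            wd (fun (k : Fin (q+1)) => (gg j j').mulVec (fun (p : Fin n) => (x k).a p)) k p p') := by
      intro S
      unfold PhiZ
      rw [if_pos (show D5 (pi2 (sh s (fun a' b' c d e => ∑ i ∈ S.map Fin.valEmbedding,
          (uu x a b q i).e a' b' c d e))) from hs)]
      congr 1
      funext i
      have h2 := conj_add (gg j j') (Cm n s.e i) (fun k : Fin (q+1) => lab n (a k) (b k) i)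
        (fun (k : Fin (q+1)) (p : Fin n) => (x k).a p) S
      refine Eq.trans ?_ h2
      congr 2
      funext p p'
      exact sum_uu_e x a b n s.e S i p p'
    simp only [h1, Finset.card_map]
    exact SS_diff j _ _ _ (fun k => gg_mulVec j j' _ (mem_YY.mp (hx k)))
  · apply Finset.sum_eq_zero
    intro S _
    unfold PhiZ
    rw [if_neg (show ¬ D5 (pi2 (sh s (fun a' b' c d e => ∑ i ∈ S.map Fin.valEmbedding,
          (uu x a b q i).e a' b' c d e))) from hs), mul_zero]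

/-! ### the test group -/

/-- functions on the group modulo two which have integral lifts -/
def Lft (n : ℕ) : AddSubgroup (T5 (ZMod 2) → ZMod 2) where
  carrier := {f | ∀ j j' : Fin n, j ≠ j' → ∃ g ∈ MM (YY j j'), ∀ τ : T5 ℤ,
    ((g τ : ℤ) : ZMod 2) = f (pi2 τ)}
  add_mem' := by
    intro f f' hf hf' j j' hj
    obtain ⟨g, hg, h⟩ := hf j j' hj
    obtain ⟨g', hg', h'⟩ := hf' j j' hj
    refine ⟨g + g', (MM _).add_mem hg hg', fun τ => ?_⟩
    rw [Pi.add_apply, Pi.add_apply, Int.cast_add, h, h']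
  zero_mem' := by
    intro j j' _
    exact ⟨0, (MM _).zero_mem, fun τ => by simp⟩
  neg_mem' := by
    intro f hf j j' hj
    obtain ⟨g, hg, h⟩ := hf j j' hj
    refine ⟨-g, (MM _).neg_mem hg, fun τ => ?_⟩
    rw [Pi.neg_apply, Pi.neg_apply, Int.cast_neg, h]

theorem red_surj : Function.Surjective red := by
  intro z
  exact ⟨z.val, by simp [red]⟩

/-- canonical lifts -/
def up (t : T5 (ZMod 2)) : T5 ℤ :=
  { a := fun i => ((t.a i).val : ℤ)
    b := fun i j => ((t.b i j).val : ℤ)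
    c := fun i j k => ((t.c i j k).val : ℤ)
    d := fun i j k l => ((t.d i j k l).val : ℤ)
    e := fun i j k l m => ((t.e i j k l m).val : ℤ) }

theorem red_val (z : ZMod 2) : red ((z.val : ℤ)) = z := by simp [red]

theorem pi2_up (t : T5 (ZMod 2)) : pi2 (up t) = t := by
  ext
  · exact red_val _
  · exact red_val _
  · exact red_val _
  · exact red_val _
  · exact red_val _

theorem Lft_rt {n : ℕ} {f : T5 (ZMod 2) → ZMod 2} (hf : f ∈ Lft n) (t : T5 (ZMod 2)) :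
    rt t f ∈ Lft n := by
  intro j j' hj
  obtain ⟨g, hg, h⟩ := hf j j' hj
  refine ⟨rt (up t) g, MM_rt hg _, fun τ => ?_⟩
  unfold rt
  rw [h, map_mul, pi2_up]

theorem Phi_mem {N : ℕ} (hN : Even (N+1)) : Phi N ∈ Lft (N+1) := by
  intro j j' hj
  exact ⟨PhiZ j j', PhiZ_mem j j', PhiZ_mod hN hj⟩

/-- the test group -/
def HN (n : ℕ) : Subgroup (WG (T5 (ZMod 2)) (ZMod 2)) where
  carrier := {x | x.f ∈ Lft n}
  mul_mem' := by
    intro x y hx hy
    have : (x * y).f = x.f + rt x.t y.f := rfl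
    change (x * y).f ∈ Lft n
    rw [this]
    exact AddSubgroup.add_mem _ hx (Lft_rt hy _)
  one_mem' := (Lft n).zero_mem
  inv_mem' := by
    intro x hx
    have : (x⁻¹).f = - rt x.t⁻¹ x.f := rfl
    change (x⁻¹).f ∈ Lft n
    rw [this]
    exact AddSubgroup.neg_mem _ (Lft_rt hx _)

/-! ### the law which fails -/

/-- basis elements -/
def bs (j : ℕ) : T5 (ZMod 2) :=
  ⟨Pi.single j 1, fun _ _ => 0, fun _ _ _ => 0, fun _ _ _ _ => 0, fun _ _ _ _ _ => 0⟩

theorem bs_a (j : ℕ) : (bs j).a = Pi.single j 1 := rfl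

theorem lab_bs {N : ℕ} (k i : Fin (N+1)) :
    lab (N+1) (bs (N+1+(k : ℕ))) (bs (2*(N+1))) i =
      (Pi.single k 1 : Fin (N+1) → ZMod 2) i := by
  unfold lab
  rw [bs_a, bs_a, Pi.single_eq_same, Pi.single_eq_of_ne (show N+1+(i : ℕ) ≠ 2*(N+1) by omega)]
  rw [Pi.single_apply, Pi.single_apply]
  by_cases h : i = k
  · subst h; simp
  · have : ¬ (N + 1 + (i : ℕ) = N + 1 + (k : ℕ)) := by
      intro h'; apply h; ext; omega
    rw [if_neg this, Pi.single_eq_of_ne h]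
    simp

/-- the top value -/
theorem top_value {N : ℕ} (hN : 1 ≤ N) :
    dls (uu (fun k => bs k) (fun k => bs (N+1+k)) (fun _ => bs (2*(N+1))) N) (N+1) (Phi N) 1
      = 1 := by
  rw [dls_formula (u := uu (fun k => bs k) (fun k => bs (N+1+k)) (fun _ => bs (2*(N+1))) N)
    (fun i => uu_D5 _ _ _ N i) (ZMod 2), sum_powerset_fin]
  have hD1 : D5 (1 : T5 (ZMod 2)) :=
    ⟨⟨⟨fun _ => rfl, fun _ _ => rfl⟩, fun _ _ _ => rfl⟩, fun _ _ _ _ => rfl⟩
  have h1 : ∀ S : Finset (Fin (N+1)),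
      Phi N (sh 1 (fun a' b' c d e => ∑ i ∈ S.map Fin.valEmbedding,
        (uu (fun k => bs k) (fun k => bs (N+1+k)) (fun _ => bs (2*(N+1))) N i).e a' b' c d e)) =
      SS (0 : Fin (N+1)) (fun i => fun p p' => if i ∈ S then
        ((Pi.single i (1 : ZMod 2) : Fin (N+1) → ZMod 2) p *
          (Pi.single (i+1) (1 : ZMod 2) : Fin (N+1) → ZMod 2) p' -
        (Pi.single (i+1) (1 : ZMod 2) : Fin (N+1) → ZMod 2) p *
          (Pi.single i (1 : ZMod 2) : Fin (N+1) → ZMod 2) p') else 0) := by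
    intro S
    unfold Phi
    rw [if_pos (show D5 (sh (1 : T5 (ZMod 2)) (fun a' b' c d e => ∑ i ∈ S.map Fin.valEmbedding,
        (uu (fun k => bs k) (fun k => bs (N+1+k)) (fun _ => bs (2*(N+1))) N i).e a' b' c d e))
        from hD1)]
    congr 1
    funext i p p'
    have h2 := sum_uu_e (fun k => bs k) (fun k => bs (N+1+k)) (fun _ => bs (2*(N+1))) (N+1)
      (1 : T5 (ZMod 2)).e S i p p'
    have h3 : Cm (N+1) (1 : T5 (ZMod 2)).e i p p' = 0 := by
      unfold Cm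
      simp [one_e]
    rw [h3, zero_add] at h2
    refine Eq.trans h2 ?_
    simp only [lab_bs]
    have h4 : ∀ k : Fin (N+1), (Pi.single k 1 : Fin (N+1) → ZMod 2) i *
        wd (fun (k : Fin (N+1)) (p : Fin (N+1)) => (bs (k : ℕ)).a p) k p p' =
        if k = i then wd (fun (k : Fin (N+1)) (p : Fin (N+1)) => (bs (k : ℕ)).a p) i p p'
          else 0 := by
      intro k
      by_cases h : k = i
      · subst h; simp
      · rw [if_neg h, Pi.single_eq_of_ne (Ne.symm h), zero_mul]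
    simp only [h4]
    rw [Finset.sum_ite_eq']
    by_cases hi : i ∈ S
    · rw [if_pos hi, if_pos hi]
      unfold wd
      have h5 : ∀ k p : Fin (N+1), (bs (k : ℕ)).a (p : ℕ) =
          (Pi.single k 1 : Fin (N+1) → ZMod 2) p := by
        intro k p
        rw [bs_a, Pi.single_apply, Pi.single_apply]
        simp [Fin.ext_iff]
      simp only [h5]
    · rw [if_neg hi, if_neg hi]
  simp only [h1, Finset.card_map]
  rw [Finset.sum_eq_single Finset.univ]
  · simp only [Finset.mem_univ, if_true]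
    rw [SS_top hN, mul_one]
    have : ((-1 : ZMod 2)) = 1 := by decide
    rw [this, one_pow]
  · intro S _ hS
    have : ∃ i, i ∉ S := by
      by_contra hc
      push Not at hc
      exact hS (Finset.eq_univ_iff_forall.mpr hc)
    obtain ⟨i, hi⟩ := this
    refine mul_eq_zero_of_right _ (SS_slot_zero 0 (i := i) ?_)
    intro a b
    exact if_neg hi
  · intro h; exact absurd (Finset.mem_univ _) h

theorem Phi_supp (N : ℕ) (x a b : ℕ → T5 (ZMod 2)) (q k : ℕ) {s : T5 (ZMod 2)} (hs : ¬ D5 s) :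
    dls (uu x a b q) k (Phi N) s = 0 := by
  rw [dls_formula (u := uu x a b q) (fun i => uu_D5 x a b q i) (ZMod 2)]
  apply Finset.sum_eq_zero
  intro S _
  unfold Phi
  rw [if_neg (fun h => hs (D5_sh.mp h)), mul_zero]

theorem dl_step {g : T5 (ZMod 2) → ZMod 2} {J : Set ℕ}
    (hg : ∀ s : T5 (ZMod 2), (∃ j ∉ J, s.a j ≠ 0) → g s = 0)
    {j : ℕ} (hj : j ∉ J) : dl (bs j) g 1 = g 1 ∧
      ∀ s : T5 (ZMod 2), (∃ i ∉ insert j J, s.a i ≠ 0) → dl (bs j) g s = 0 := by
  constructor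
  · unfold dl
    rw [one_mul, hg (bs j) ⟨j, hj, by rw [bs_a, Pi.single_eq_same]; exact one_ne_zero⟩, sub_zero]
  · rintro s ⟨i, hi, h⟩
    rw [Set.mem_insert_iff, not_or] at hi
    unfold dl
    rw [hg s ⟨i, hi.2, h⟩, hg (s * bs j) ⟨i, hi.2, ?_⟩, sub_zero]
    rw [T5.mul_a, bs_a, Pi.single_eq_of_ne hi.1, add_zero]
    exact h

theorem HN_not_wrd {N : ℕ} (hN : 1 ≤ N) (hE : Even (N+1)) :
    ∃ φ : F →* HN (N+1), φ (wrd N) ≠ 1 := by
  let z0 : HN (N+1) := ⟨⟨Phi N, 1⟩, Phi_mem hE⟩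
  let em : T5 (ZMod 2) → HN (N+1) := fun t => ⟨⟨0, t⟩, (Lft (N+1)).zero_mem⟩
  let φ : F →* HN (N+1) := FreeGroup.lift (fun i =>
    if i = 0 then z0 else if i < 6 then em (bs i) else
      if i % 3 = 0 then em (bs ((i - 6) / 3)) else
        if i % 3 = 1 then em (bs (N+1+(i-7)/3)) else em (bs (2*(N+1))))
  refine ⟨φ, fun hcon => ?_⟩
  have h0 : ((HN (N+1)).subtype.comp φ) (wrd N) = 1 := by
    rw [MonoidHom.comp_apply, hcon, map_one]
  set ψ := (HN (N+1)).subtype.comp φ with hψ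
  rw [map_wrd] at h0
  have hz0 : ψ (FreeGroup.of 0) = ⟨Phi N, 1⟩ := by simp [hψ, φ, z0]
  have hz1 : ψ (FreeGroup.of 1) = ⟨0, bs 1⟩ := by simp [hψ, φ, em]
  have hz2 : ψ (FreeGroup.of 2) = ⟨0, bs 2⟩ := by simp [hψ, φ, em]
  have hz3 : ψ (FreeGroup.of 3) = ⟨0, bs 3⟩ := by simp [hψ, φ, em]
  have hz4 : ψ (FreeGroup.of 4) = ⟨0, bs 4⟩ := by simp [hψ, φ, em]
  have hz5 : ψ (FreeGroup.of 5) = ⟨0, bs 5⟩ := by simp [hψ, φ, em]
  have hx : ∀ k, ψ (FreeGroup.of (6+3*k)) = ⟨0, bs k⟩ := by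
    intro k
    have e1 : ¬ (6 + 3 * k = 0) := by omega
    have e2 : ¬ (6 + 3 * k < 6) := by omega
    have e3 : (6 + 3 * k) % 3 = 0 := by omega
    have e4 : (6 + 3 * k - 6) / 3 = k := by omega
    simp only [hψ, φ, em, MonoidHom.comp_apply, FreeGroup.lift_apply_of, if_neg e1, if_neg e2,
      if_pos e3, e4, Subgroup.coe_subtype]
  have ha : ∀ k, ψ (FreeGroup.of (7+3*k)) = ⟨0, bs (N+1+k)⟩ := by
    intro k
    have e1 : ¬ (7 + 3 * k = 0) := by omega
    have e2 : ¬ (7 + 3 * k < 6) := by omega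
    have e3 : ¬ ((7 + 3 * k) % 3 = 0) := by omega
    have e3' : (7 + 3 * k) % 3 = 1 := by omega
    have e4 : (7 + 3 * k - 7) / 3 = k := by omega
    simp only [hψ, φ, em, MonoidHom.comp_apply, FreeGroup.lift_apply_of, if_neg e1, if_neg e2,
      if_neg e3, if_pos e3', e4, Subgroup.coe_subtype]
  have hb : ∀ k, ψ (FreeGroup.of (8+3*k)) = ⟨0, bs (2*(N+1))⟩ := by
    intro k
    have e1 : ¬ (8 + 3 * k = 0) := by omega
    have e2 : ¬ (8 + 3 * k < 6) := by omega
    have e3 : ¬ ((8 + 3 * k) % 3 = 0) := by omega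
    have e3' : ¬ ((8 + 3 * k) % 3 = 1) := by omega
    simp only [hψ, φ, em, MonoidHom.comp_apply, FreeGroup.lift_apply_of, if_neg e1, if_neg e2,
      if_neg e3, if_neg e3', Subgroup.coe_subtype]
  have h1 := e6_t (fun i => ψ (FreeGroup.of i))
  have h3 := chain_of h1 (uu (fun k => ψ (FreeGroup.of (6+3*k)))
    (fun k => ψ (FreeGroup.of (7+3*k))) (fun k => ψ (FreeGroup.of (8+3*k))) N) (N+1)
  have h4 : (chain (e6 fun i => ψ (FreeGroup.of i)) (uu (fun k => ψ (FreeGroup.of (6 + 3 * k)))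
    (fun k => ψ (FreeGroup.of (7 + 3 * k))) (fun k => ψ (FreeGroup.of (8+3*k))) N) (N+1)).f 1
      = 0 := by
    rw [h0]; rfl
  rw [h3.2, uu_t] at h4
  have hX : (fun i => (ψ (FreeGroup.of (6+3*i))).t) = fun k => bs k := by
    funext k; rw [hx]
  have hA : (fun i => (ψ (FreeGroup.of (7+3*i))).t) = fun k => bs (N+1+k) := by
    funext k; rw [ha]
  have hB : (fun i => (ψ (FreeGroup.of (8+3*i))).t) = fun _ => bs (2*(N+1)) := by
    funext k; rw [hb]
  rw [hX, hA, hB] at h4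
  have he : (e6 fun i => ψ (FreeGroup.of i)).f =
      dl (bs 5) (dl (bs 4) (dl (bs 3) (dl (bs 2) (dl (bs 1) (Phi N))))) := by
    unfold e6
    beta_reduce
    rw [hz0, hz1, hz2, hz3, hz4, hz5]
    have k1 := cm_of (e := (⟨Phi N, 1⟩ : WG (T5 (ZMod 2)) (ZMod 2))) rfl ⟨0, bs 1⟩
    have k2 := cm_of k1.1 ⟨0, bs 2⟩
    have k3 := cm_of k2.1 ⟨0, bs 3⟩
    have k4 := cm_of k3.1 ⟨0, bs 4⟩
    have k5 := cm_of k4.1 ⟨0, bs 5⟩
    rw [k5.2, k4.2, k3.2, k2.2, k1.2]
  rw [he] at h4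
  have hu := uu_comm (fun k => bs k) (fun k => bs (N+1+k)) (fun _ => bs (2*(N+1))) N
  rw [dls_dl hu, dls_dl hu, dls_dl hu, dls_dl hu, dls_dl hu] at h4
  set g := dls (uu (fun k => bs k) (fun k => bs (N+1+k)) (fun _ => bs (2*(N+1))) N) (N+1) (Phi N)
    with hg
  have hg0 : ∀ s : T5 (ZMod 2), (∃ j ∉ (∅ : Set ℕ), s.a j ≠ 0) → g s = 0 := by
    rintro s ⟨j, _, hj⟩
    exact Phi_supp N _ _ _ N (N+1) (fun h => hj (h.1.1.1 j))
  have s1 := dl_step hg0 (j := 1) (by simp)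
  have s2 := dl_step s1.2 (j := 2) (by simp)
  have s3 := dl_step s2.2 (j := 3) (by simp)
  have s4 := dl_step s3.2 (j := 4) (by simp)
  have s5 := dl_step s4.2 (j := 5) (by simp)
  rw [s5.1, s4.1, s3.1, s2.1, s1.1, hg, top_value hN] at h4
  exact one_ne_zero h4

end Pool.Agent.W363.TF
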